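import Pool.Agent.L0h98.GS.Sub

set_option autoImplicit false

/-! From a colouring of a nearby configuration to a colouring of the configuration. -/

namespace Pool.Agent.L0h98.GS

open Finset Classical
open Pool.Agent.N404.LF (cnt)

theorem fl_fl {m : ℕ} (x : Hf m) : fl (fl x) = x := by
  unfold fl; simp

section

variable {V : Type} [Fintype V] {m m' k : ℕ} (a : Hf m → V) (W : Finset V) (hm : m' ≤ m)
  (β : Equiv.Perm (Hf m)) (a' : Hf m' → {v // v ∈ W})

/-- the exceptional vertices -/
noncomputable def US (a : Hf m → V) (W : Finset V) (π ρ : Equiv.Perm (Hf m)) : Finset V :=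
  ((univ.filter fun x => π x ≠ ρ x).biUnion fun x => {a (π x), a (π (fl x))}) ∪ (univ \ W)

theorem card_US (π ρ : Equiv.Perm (Hf m)) :
    (US a W π ρ).card ≤ 2 * (univ.filter fun x => π x ≠ ρ x).card + (univ \ W).card := by
  unfold US
  refine (card_union_le _ _).trans (Nat.add_le_add ?_ le_rfl)
  refine card_biUnion_le.trans ((sum_le_card_nsmul _ _ 2 fun x _ => card_le_two).trans ?_)
  rw [smul_eq_mul, mul_comm]

theorem notMem_US {π ρ : Equiv.Perm (Hf m)} {x : Hf m} (hx : a (π x) ∉ US a W π ρ) :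
    a (π x) ∈ W ∧ π x = ρ x := by
  constructor
  · by_contra h
    apply hx
    unfold US
    rw [mem_union]
    right
    rw [mem_sdiff]
    exact ⟨mem_univ _, h⟩
  · by_contra h
    apply hx
    unfold US
    rw [mem_union]
    left
    rw [mem_biUnion]
    refine ⟨x, ?_, ?_⟩
    · rw [mem_filter]; exact ⟨mem_univ _, h⟩
    · rw [mem_insert]; left; rfl

theorem count_near (hk : 1 ≤ k)
    (hβ : ∀ x : Hf m, x.1.val < m' ↔ a (β x) ∈ W)
    (ha' : ∀ x : Hf m', (a' x).1 = a (β (emb hm x)))
    (π : Equiv.Perm (Hf m)) (π₀ : Equiv.Perm (Hf m')) (c : V → Fin 4)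
    (hc : ∀ i, a (π (i, false)) ∈ US a W π ((ex hm π₀).trans β) →
      a (π (i, true)) ∈ US a W π ((ex hm π₀).trans β) →
      a (π (i, false)) ≠ a (π (i, true)) → c (a (π (i, false))) ≠ c (a (π (i, true)))) :
    (pcol a' k π₀).card ≤ Nat.card ((Cg a π).Coloring (Fin (k + 4))) *
      k ^ (US a W π ((ex hm π₀).trans β)).card := by
  set ρ : Equiv.Perm (Hf m) := (ex hm π₀).trans β with hρ
  set U := US a W π ρ with hU
  -- the extension of a colouring
  let xt : ({v // v ∈ W} → Fin k) → V → Fin k := fun σ v =>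
    if h : v ∈ W then σ ⟨v, h⟩ else ⟨0, by omega⟩
  have hxt : ∀ σ (v : {v // v ∈ W}), xt σ v.1 = σ v := by
    intro σ v
    show (if h : v.1 ∈ W then σ ⟨v.1, h⟩ else ⟨0, by omega⟩) = σ v
    rw [dif_pos v.2]
  have key : ∀ σ : {v // v ∈ W} → Fin k, (∀ i, σ (a' (π₀ (i, false))) ≠ σ (a' (π₀ (i, true)))) →
      ∀ i, a (π (i, false)) ≠ a (π (i, true)) →
      (if a (π (i, false)) ∈ U then Fin.natAdd k (c (a (π (i, false)))) else
        Fin.castAdd 4 (xt σ (a (π (i, false))))) ≠
      (if a (π (i, true)) ∈ U then Fin.natAdd k (c (a (π (i, true)))) else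
        Fin.castAdd 4 (xt σ (a (π (i, true))))) := by
    intro σ hσ i hne
    by_cases h1 : a (π (i, false)) ∈ U <;> by_cases h2 : a (π (i, true)) ∈ U
    · rw [if_pos h1, if_pos h2]
      intro heq
      exact hc i h1 h2 hne (Fin.natAdd_injective _ _ heq)
    · rw [if_pos h1, if_neg h2]
      intro heq
      have := congrArg Fin.val heq
      simp only [Fin.val_natAdd, Fin.val_castAdd] at this
      have h3 := (xt σ (a (π (i, true)))).2
      omega
    · rw [if_neg h1, if_pos h2]
      intro heq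
      have := congrArg Fin.val heq
      simp only [Fin.val_natAdd, Fin.val_castAdd] at this
      have h3 := (xt σ (a (π (i, false)))).2
      omega
    · rw [if_neg h1, if_neg h2]
      intro heq
      have heq' := Fin.castAdd_injective _ _ heq
      obtain ⟨w1, e1⟩ := notMem_US a W h1
      obtain ⟨w2, e2⟩ := notMem_US a W h2
      have hi : i.val < m' := by
        rw [e1] at w1
        have h3 : (ex hm π₀ (i, false)).1.val < m' := (hβ _).2 w1
        exact (ex_lt hm π₀ (i, false)).1 h3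
      have f1 : ∀ b : Bool, ρ (i, b) = β (emb hm (π₀ (⟨i.val, hi⟩, b))) := by
        intro b
        rw [hρ, Equiv.trans_apply]
        have : ((i, b) : Hf m) = emb hm (⟨i.val, hi⟩, b) := rfl
        rw [this, ex_apply]
      rw [e1, e2, f1, f1, ← ha', ← ha', hxt, hxt] at heq'
      exact hσ _ heq'
  let Φ : {σ // σ ∈ pcol a' k π₀} → (Cg a π).Coloring (Fin (k + 4)) := fun σ =>
    SimpleGraph.Coloring.mk (fun x => if x ∈ U then Fin.natAdd k (c x) else
      Fin.castAdd 4 (xt σ.1 x)) (by
      have hσ : ∀ i, σ.1 (a' (π₀ (i, false))) ≠ σ.1 (a' (π₀ (i, true))) :=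
        (mem_filter.1 σ.2).2
      intro v w hadj
      rw [Cg, SimpleGraph.fromRel_adj] at hadj
      obtain ⟨hne, hadj⟩ := hadj
      rcases hadj with ⟨i, h1, h2⟩ | ⟨i, h1, h2⟩
      · subst h1 h2
        exact key σ.1 hσ i hne
      · subst h1 h2
        exact (key σ.1 hσ i hne.symm).symm)
  have hΦ : ∀ σ x, Φ σ x = if x ∈ U then Fin.natAdd k (c x) else Fin.castAdd 4 (xt σ.1 x) :=
    fun σ x => rfl
  let Ψ : {σ // σ ∈ pcol a' k π₀} → (Cg a π).Coloring (Fin (k + 4)) × (U → Fin k) :=
    fun σ => (Φ σ, fun x => xt σ.1 x.1)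
  have hinj : Function.Injective Ψ := by
    intro σ τ hστ
    apply Subtype.ext
    funext v
    have h1 : Φ σ = Φ τ := (Prod.mk.inj hστ).1
    have h2 : (fun x : U => xt σ.1 x.1) = fun x : U => xt τ.1 x.1 := (Prod.mk.inj hστ).2
    by_cases hx : v.1 ∈ U
    · have := congrFun h2 ⟨v.1, hx⟩
      simp only [hxt] at this
      exact this
    · have h3 : Φ σ v.1 = Φ τ v.1 := by rw [h1]
      rw [hΦ, hΦ, if_neg hx, if_neg hx] at h3
      have := Fin.castAdd_injective _ _ h3
      rwa [hxt, hxt] at this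
  have hfin : Finite ((Cg a π).Coloring (Fin (k + 4))) :=
    Finite.of_injective (fun C : (Cg a π).Coloring (Fin (k + 4)) => (C : V → _))
      DFunLike.coe_injective
  have h4 := Nat.card_le_card_of_injective Ψ hinj
  rw [Nat.card_prod, Nat.card_eq_fintype_card, Fintype.card_coe] at h4
  refine h4.trans (le_of_eq ?_)
  congr 1
  rw [Nat.card_eq_fintype_card, Fintype.card_fun, Fintype.card_fin, Fintype.card_coe]

end

end Pool.Agent.L0h98.GS
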