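import Pool.Agent.N404.LF.Stm

set_option autoImplicit false

/-!
# Project GS (MP_ef9bc2_co): counting the colourings of almost all graphs with a given degree
sequence. Definitions and statements.

`Hf m = Fin m × Bool` is the set of the labels of the `2 m` half-edges, and the set of the
positions. `a : Hf m → V` gives the vertex of a half-edge. The configuration `π`, a permutation of
`Hf m`, has the `m` edges `i` with the ends `a (π (i, false))` and `a (π (i, true))`.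
-/

namespace Pool.Agent.L0h98.GS

open Finset Classical
open Pool.Agent.N404.LF (cnt Bal ov)

/-- Labels and positions of the half-edges. -/
abbrev Hf (m : ℕ) : Type := Fin m × Bool

/-- The position at the other end of the same edge. -/
def fl {m : ℕ} (x : Hf m) : Hf m := (x.1, !x.2)

/-- The graph of a configuration (loops dropped, parallel edges merged). -/
def Cg {V : Type} {m : ℕ} (a : Hf m → V) (π : Equiv.Perm (Hf m)) : SimpleGraph V :=
  SimpleGraph.fromRel fun x y => ∃ i, x = a (π (i, false)) ∧ y = a (π (i, true))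

/-- No loops and no parallel edges. -/
def Sim {V : Type} {m : ℕ} (a : Hf m → V) (π : Equiv.Perm (Hf m)) : Prop :=
  (∀ i, a (π (i, false)) ≠ a (π (i, true))) ∧
    Function.Injective fun i => s(a (π (i, false)), a (π (i, true)))

/-- Number of the edges inside `U`. -/
noncomputable def eC {V : Type} {m : ℕ} (a : Hf m → V) (π : Equiv.Perm (Hf m))
    (U : Finset V) : ℕ :=
  (univ.filter fun i : Fin m => a (π (i, false)) ∈ U ∧ a (π (i, true)) ∈ U).card

/-- The proper colourings of a configuration. -/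
noncomputable def pcol {V : Type} [Fintype V] {m : ℕ} (a : Hf m → V) (k : ℕ)
    (π : Equiv.Perm (Hf m)) : Finset (V → Fin k) :=
  univ.filter fun σ => ∀ i, σ (a (π (i, false))) ≠ σ (a (π (i, true)))

/-- The half-edge `y` leaves from the vertex at which the edge of `x`, entered at `x`, ends. -/
def Lk {V : Type} {m : ℕ} (a : Hf m → V) (π : Equiv.Perm (Hf m)) (x y : Hf m) : Prop :=
  a (π (fl x)) = a (π y)

/-- The edge `i` is on a closed trail with at most `g` edges: `(i, b), l₁, ..., l_r` (`r < g`) are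
positions of different edges, and each leaves from the vertex where the one before it ends,
cyclically. -/
def Bad {V : Type} {m : ℕ} (g : ℕ) (a : Hf m → V) (π : Equiv.Perm (Hf m)) (i : Fin m) : Prop :=
  ∃ (b : Bool) (l : List (Hf m)), l.length < g ∧ (i :: l.map Prod.fst).Nodup ∧
    List.IsChain (Lk a π) ((i, b) :: (l ++ [(i, b)]))

/-- The simple graph `G` has no cycle with at most `g` edges. -/
def GirthGt {V : Type} (G : SimpleGraph V) (g : ℕ) : Prop :=
  ∀ (v : V) (c : G.Walk v v), c.IsCycle → g < c.length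

/-! ### leaves -/

/-- UPM: upper bound for the number of configurations compatible with a relation of types. -/
def S_UPM : Prop := ∀ (A : Type) [Fintype A] (m : ℕ) (f : Hf m → A) (R : A → A → Prop), 1 ≤ m →
  ((univ.filter fun π : Equiv.Perm (Hf m) =>
      ∀ i, R (f (π (i, false))) (f (π (i, true)))).card : ℝ) ≤
    ((2 * m).factorial : ℝ) * (3 * (2 * (m : ℝ) + 1)) ^ Fintype.card A *
      (∑ x, ∑ y, if R x y then ((cnt f x : ℝ) / (2 * m)) * ((cnt f y : ℝ) / (2 * m)) else 0) ^ m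

/-- LOWM: lower bound for balanced colourings. -/
def S_LOWM : Prop := ∀ k M m : ℕ, 2 ≤ k → m = k * (k - 1) * M → ∀ f : Hf m → Fin k, Bal f →
  ((2 * m).factorial : ℝ) * (1 - 1 / (k : ℝ)) ^ m ≤ (3 * (2 * (m : ℝ) + 1)) ^ (k ^ 2 + k) *
    ((univ.filter fun π : Equiv.Perm (Hf m) =>
      ∀ i, f (π (i, false)) ≠ f (π (i, true))).card : ℝ)

/-- ISOM: concentration. -/
def S_ISOM : Prop := ∀ (m : ℕ) (A : Finset (Equiv.Perm (Hf m))) (t : ℝ), 0 ≤ t →
  (A.card : ℝ) *
    ((univ.filter fun π : Equiv.Perm (Hf m) => ∀ π' ∈ A,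
      t ≤ ((univ.filter fun x => π x ≠ π' x).card : ℝ)).card : ℝ) ≤
    ((2 * m).factorial : ℝ) ^ 2 * Real.exp (-(t ^ 2 / (36 * m)))

/-- SPM: small sets of vertices span few edges. -/
def S_SPM : Prop := ∀ Δ : ℕ, ∃ C : ℕ, ∀ (V : Type) [Fintype V] (m : ℕ) (a : Hf m → V),
  (∀ v, 1 ≤ cnt a v) → (∀ v, cnt a v ≤ Δ) → ∀ s : ℕ, C * s ≤ m →
    m * (univ.filter fun π : Equiv.Perm (Hf m) => ∃ U : Finset V,
      U.Nonempty ∧ U.card ≤ s ∧ 2 * U.card ≤ eC a π U).card ≤ C * s * (2 * m).factorial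

/-- DEGM: sets which span few edges are 4-colourable. -/
def S_DEGM : Prop := ∀ (V : Type) (m : ℕ) (a : Hf m → V) (π : Equiv.Perm (Hf m)) (U : Finset V),
  (∀ W ⊆ U, W.Nonempty → eC a π W < 2 * W.card) →
  ∃ c : V → Fin 4, ∀ i, a (π (i, false)) ∈ U → a (π (i, true)) ∈ U →
    a (π (i, false)) ≠ a (π (i, true)) → c (a (π (i, false))) ≠ c (a (π (i, true)))

/-- CYC: the expected number of the edges on short closed trails is bounded. -/
def S_CYC : Prop := ∀ Δ g : ℕ, ∃ K m₀ : ℕ, ∀ (V : Type) (m : ℕ) (a : Hf m → V), m₀ ≤ m →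
  (∀ v, cnt a v ≤ Δ) →
  ∑ π : Equiv.Perm (Hf m), (univ.filter fun i => Bad g a π i).card ≤ K * (2 * m).factorial

/-- SWI: a positive proportion of the configurations has no short closed trails. -/
def S_SWI : Prop := ∀ Δ g : ℕ, ∃ C m₀ : ℕ, ∀ (V : Type) (m : ℕ) (a : Hf m → V), m₀ ≤ m →
  (∀ v, cnt a v ≤ Δ) →
  (2 * m).factorial ≤ C * (univ.filter fun π : Equiv.Perm (Hf m) => ∀ i, ¬ Bad g a π i).card

/-- CONF: each simple graph with the given degrees comes from the same number of configurations. -/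
def S_CONF : Prop := ∀ (V : Type) [Fintype V] (m : ℕ) (a : Hf m → V),
  (∃ F : ℕ, ∀ G : SimpleGraph V, (∀ v, (G.neighborSet v).ncard = cnt a v) →
    (univ.filter fun π : Equiv.Perm (Hf m) => Sim a π ∧ Cg a π = G).card = F) ∧
  (∀ π, Sim a π → (∀ v, ((Cg a π).neighborSet v).ncard = cnt a v) ∧
    Nat.card (Cg a π).edgeSet = m)

/-- GIR: configurations without short closed trails give graphs of large girth. -/
def S_GIR : Prop := ∀ (V : Type) (m : ℕ) (a : Hf m → V) (π : Equiv.Perm (Hf m)) (g : ℕ), 2 ≤ g →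
  (∀ i, ¬ Bad g a π i) → Sim a π ∧ GirthGt (Cg a π) g

/-- GREEDY: many colours. -/
def S_GREEDY : Prop := ∀ (V : Type) [Fintype V] (G : SimpleGraph V) (Δ q : ℕ) (η : ℝ),
  (∀ v, (G.neighborSet v).ncard ≤ Δ) → 0 < η → η < 1 → (Δ : ℝ) ≤ η * q →
  ((1 - η) * q) ^ Fintype.card V ≤ (Nat.card (G.Coloring (Fin q)) : ℝ)

/-! ### assembly -/

/-- MOMD: the second moment. -/
def S_MOMD : Prop := ∀ (k Δ : ℕ), 2 ≤ k → (Δ : ℝ) ≤ 2 * (k * Real.log k - k + 1) →
  ∃ C : ℕ, ∀ (V : Type) [Fintype V] (m : ℕ) (a : Hf m → V), 1 ≤ m → (∀ v, 1 ≤ cnt a v) →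
    (∀ v, cnt a v ≤ Δ) → (∀ c, 2 * (k * (k - 1)) ∣ (univ.filter fun v => cnt a v = c).card) →
    ∃ A : Finset (Equiv.Perm (Hf m)),
      ((2 * m).factorial : ℝ) ≤ (3 * (2 * (m : ℝ) + 1)) ^ C * A.card ∧
      ∀ π ∈ A, (k : ℝ) ^ Fintype.card V * (1 - 1 / (k : ℝ)) ^ m ≤
        (3 * (2 * (m : ℝ) + 1)) ^ C * (pcol a k π).card

/-- MAIND: the main count for almost all configurations. -/
def S_MAIND : Prop := ∀ (k Δ : ℕ) (θ : ℝ), 2 ≤ k → (Δ : ℝ) ≤ 2 * (k * Real.log k - k + 1) →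
  0 < θ → θ < 1 → ∃ m₀ : ℕ, ∀ (V : Type) [Fintype V] (m : ℕ) (a : Hf m → V), m₀ ≤ m →
    (∀ v, 1 ≤ cnt a v) → (∀ v, cnt a v ≤ Δ) →
    (m : ℝ) ^ (1 / 3 : ℝ) * ((univ.filter fun π : Equiv.Perm (Hf m) =>
      ¬ ((1 - 1 / (k : ℝ)) ^ m * ((k : ℝ) * (1 - θ)) ^ Fintype.card V ≤
        (Nat.card ((Cg a π).Coloring (Fin (k + 4))) : ℝ))).card : ℝ) ≤ ((2 * m).factorial : ℝ)

end Pool.Agent.L0h98.GS
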