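import Pool.Agent.L0h98.GS.Def
import Pool.Agent.N404.LF.Perm

set_option autoImplicit false

/-! Isolated vertices. -/

namespace Pool.Agent.L0h98.GS

open Finset Classical
open Pool.Agent.N404.LF (cnt sum_cnt)

/-- MAIND without a lower bound for the degrees -/
def S_MAIN2 : Prop := ∀ (k Δ : ℕ) (θ : ℝ), 2 ≤ k → (Δ : ℝ) ≤ 2 * (k * Real.log k - k + 1) →
  0 < θ → θ < 1 → ∃ m₀ : ℕ, ∀ (V : Type) [Fintype V] (m : ℕ) (a : Hf m → V), m₀ ≤ m →
    (∀ v, cnt a v ≤ Δ) →
    (m : ℝ) ^ (1 / 3 : ℝ) * ((univ.filter fun π : Equiv.Perm (Hf m) =>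
      ¬ ((1 - 1 / (k : ℝ)) ^ m * ((k : ℝ) * (1 - θ)) ^ Fintype.card V ≤
        (Nat.card ((Cg a π).Coloring (Fin (k + 4))) : ℝ))).card : ℝ) ≤ ((2 * m).factorial : ℝ)

theorem coloring_isolated {V : Type} [Fintype V] {m : ℕ} (a : Hf m → V) (P : V → Prop)
    (hP : ∀ x, P (a x)) (π : Equiv.Perm (Hf m)) (r : ℕ) :
    Nat.card ((Cg (fun x => (⟨a x, hP x⟩ : {v // P v})) π).Coloring (Fin r)) *
      r ^ Fintype.card {v // ¬ P v} ≤ Nat.card ((Cg a π).Coloring (Fin r)) := by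
  set a' : Hf m → {v // P v} := fun x => ⟨a x, hP x⟩ with ha'
  have hfin : Finite ((Cg a π).Coloring (Fin r)) :=
    Finite.of_injective (fun C : (Cg a π).Coloring (Fin r) => (C : V → _))
      DFunLike.coe_injective
  let Φ : (Cg a' π).Coloring (Fin r) × ({v // ¬ P v} → Fin r) → (Cg a π).Coloring (Fin r) :=
    fun p => SimpleGraph.Coloring.mk
      (fun v => if h : P v then p.1 ⟨v, h⟩ else p.2 ⟨v, h⟩) (by
        intro v w hadj
        have hadj' := hadj
        rw [Cg, SimpleGraph.fromRel_adj] at hadj'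
        obtain ⟨hne, h⟩ := hadj'
        have hPv : P v ∧ P w := by
          rcases h with ⟨i, h1, h2⟩ | ⟨i, h1, h2⟩
          · exact ⟨by rw [h1]; exact hP _, by rw [h2]; exact hP _⟩
          · exact ⟨by rw [h2]; exact hP _, by rw [h1]; exact hP _⟩
        rw [dif_pos hPv.1, dif_pos hPv.2]
        refine p.1.valid ?_
        rw [Cg, SimpleGraph.fromRel_adj]
        refine ⟨fun hcon => hne (congrArg Subtype.val hcon), ?_⟩
        rcases h with ⟨i, h1, h2⟩ | ⟨i, h1, h2⟩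
        · exact Or.inl ⟨i, Subtype.ext h1, Subtype.ext h2⟩
        · exact Or.inr ⟨i, Subtype.ext h1, Subtype.ext h2⟩)
  have hΦ : ∀ p v, Φ p v = if h : P v then p.1 ⟨v, h⟩ else p.2 ⟨v, h⟩ := fun p v => rfl
  have hinj : Function.Injective Φ := by
    intro p p' hpp
    have h1 : ∀ v, Φ p v = Φ p' v := fun v => by rw [hpp]
    refine Prod.ext ?_ ?_
    · refine DFunLike.ext _ _ fun v => ?_
      have := h1 v.1
      rw [hΦ, hΦ, dif_pos v.2, dif_pos v.2] at this
      exact this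
    · funext v
      have := h1 v.1
      rw [hΦ, hΦ, dif_neg v.2, dif_neg v.2] at this
      exact this
  have h4 := Nat.card_le_card_of_injective Φ hinj
  rw [Nat.card_prod] at h4
  refine le_trans (le_of_eq ?_) h4
  congr 1
  rw [Nat.card_eq_fintype_card, Fintype.card_fun, Fintype.card_fin]

theorem cnt_sub {V : Type} {m : ℕ} (a : Hf m → V) (P : V → Prop) (hP : ∀ x, P (a x))
    (v : {v // P v}) : cnt (fun x => (⟨a x, hP x⟩ : {v // P v})) v = cnt a v.1 := by
  unfold cnt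
  refine congrArg Finset.card ?_
  ext x
  simp only [mem_filter, mem_univ, true_and]
  constructor
  · intro h; exact congrArg Subtype.val h
  · intro h; exact Subtype.ext h

theorem proof_MAIN2 (h : S_MAIND) : S_MAIN2 := by
  intro k Δ θ hk hD hθ0 hθ1
  obtain ⟨m₀, hm₀⟩ := h k Δ θ hk hD hθ0 hθ1
  refine ⟨m₀, fun V _ m a hm hΔ => ?_⟩
  obtain ⟨P, hP⟩ : ∃ P : V → Prop, ∀ v, P v ↔ 1 ≤ cnt a v := ⟨_, fun v => Iff.rfl⟩
  have hPa : ∀ x, P (a x) := by
    intro x
    rw [hP]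
    unfold cnt
    refine Finset.card_pos.2 ⟨x, ?_⟩
    rw [mem_filter]; exact ⟨mem_univ _, rfl⟩
  have h1 := hm₀ {v // P v} m (fun x => ⟨a x, hPa x⟩) hm (fun v => by rw [cnt_sub]; exact (hP _).1 v.2)
    (fun v => by rw [cnt_sub]; exact hΔ _)
  refine le_trans (mul_le_mul_of_nonneg_left (Nat.cast_le.2 (card_le_card ?_)) (by positivity)) h1
  intro π hπ
  rw [mem_filter] at hπ ⊢
  refine ⟨mem_univ _, fun hcon => hπ.2 ?_⟩
  have h2 : ((Nat.card ((Cg (fun x => (⟨a x, hPa x⟩ : {v // P v})) π).Coloring (Fin (k + 4))) *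
      (k + 4) ^ Fintype.card {v // ¬ P v} : ℕ) : ℝ) ≤
      (Nat.card ((Cg a π).Coloring (Fin (k + 4))) : ℝ) := by
    exact_mod_cast coloring_isolated a P hPa π (k + 4)
  refine le_trans ?_ h2
  have hk0 : (0 : ℝ) < k := by positivity
  have h3 : Fintype.card V = Fintype.card {v // P v} + Fintype.card {v // ¬ P v} := by
    rw [Fintype.card_subtype_compl]
    have := Fintype.card_subtype_le P
    omega
  have hq0 : 0 ≤ 1 - 1 / (k : ℝ) := by
    rw [sub_nonneg, div_le_one hk0]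
    exact_mod_cast (by omega : 1 ≤ k)
  have hθ' : 0 ≤ (k : ℝ) * (1 - θ) := mul_nonneg hk0.le (by linarith)
  have h4 : (k : ℝ) * (1 - θ) ≤ k + 4 := by nlinarith
  rw [h3, pow_add, ← mul_assoc]
  push_cast
  exact mul_le_mul hcon (pow_le_pow_left₀ hθ' h4 _) (by positivity) (Nat.cast_nonneg _)

end Pool.Agent.L0h98.GS
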