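import Pool.Agent.L0h98.GS.Mom2

set_option autoImplicit false

/-! The second moment: assembly. -/

namespace Pool.Agent.L0h98.GS

open Finset Classical
open Pool.Agent.N404.LF (cnt Bal ov S_FIB pz)

section

variable {V ι : Type} [Fintype V] [Fintype ι] {m k : ℕ} (a : Hf m → V) (cl : V → ι) (d : ι → ℕ)

/-- proper for `π` -/
def Pr (a : Hf m → V) (σ : V → Fin k) (π : Equiv.Perm (Hf m)) : Prop :=
  ∀ i, σ (a (π (i, false))) ≠ σ (a (π (i, true)))

omit [Fintype V] in
theorem card_Pr (σ : V → Fin k) : (univ.filter fun π : Equiv.Perm (Hf m) => Pr a σ π).card =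
    (univ.filter fun π : Equiv.Perm (Hf m) =>
      ∀ i, σ (a (π (i, false))) ≠ σ (a (π (i, true)))).card := by
  unfold Pr; congr

omit [Fintype V] in
theorem card_Pr2 (σ τ : V → Fin k) :
    (univ.filter fun π : Equiv.Perm (Hf m) => Pr a σ π ∧ Pr a τ π).card =
    (univ.filter fun π : Equiv.Perm (Hf m) =>
      (∀ i, σ (a (π (i, false))) ≠ σ (a (π (i, true)))) ∧
      ∀ i, τ (a (π (i, false))) ≠ τ (a (π (i, true)))).card := by
  unfold Pr; congr

/-- the balanced colourings -/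
noncomputable def BS (k : ℕ) (cl : V → ι) : Finset (V → Fin k) :=
  univ.filter fun σ => ∀ i, Bal (rs cl σ i)

/-- the number of the balanced proper colourings -/
noncomputable def Yb (k : ℕ) (a : Hf m → V) (cl : V → ι) (π : Equiv.Perm (Hf m)) : ℝ :=
  (((BS k cl).filter fun σ => Pr a σ π).card : ℝ)

theorem sum_Yb : ∑ π : Equiv.Perm (Hf m), Yb k a cl π =
    ∑ σ ∈ BS k cl, ((univ.filter fun π : Equiv.Perm (Hf m) => Pr a σ π).card : ℝ) := by
  have h1 : ∀ π : Equiv.Perm (Hf m), Yb k a cl π =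
      ∑ σ ∈ BS k cl, if Pr a σ π then (1 : ℝ) else 0 := by
    intro π
    rw [Yb, Finset.sum_boole]
  simp only [h1]
  rw [Finset.sum_comm]
  refine Finset.sum_congr rfl fun σ _ => ?_
  rw [Finset.sum_boole]

theorem sum_Yb2 : ∑ π : Equiv.Perm (Hf m), Yb k a cl π ^ 2 =
    ∑ σ ∈ BS k cl, ∑ τ ∈ BS k cl,
      ((univ.filter fun π : Equiv.Perm (Hf m) => Pr a σ π ∧ Pr a τ π).card : ℝ) := by
  have h1 : ∀ π : Equiv.Perm (Hf m), Yb k a cl π ^ 2 =
      ∑ σ ∈ BS k cl, ∑ τ ∈ BS k cl, if Pr a σ π ∧ Pr a τ π then (1 : ℝ) else 0 := by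
    intro π
    have h2 : Yb k a cl π = ∑ σ ∈ BS k cl, if Pr a σ π then (1 : ℝ) else 0 := by
      rw [Yb, Finset.sum_boole]
    rw [h2, sq, Finset.sum_mul_sum]
    refine Finset.sum_congr rfl fun ρ _ => Finset.sum_congr rfl fun ρ' _ => ?_
    by_cases h : Pr a ρ π <;> by_cases h' : Pr a ρ' π <;> simp [h, h']
  simp only [h1]
  rw [Finset.sum_comm]
  refine Finset.sum_congr rfl fun σ _ => ?_
  rw [Finset.sum_comm]
  refine Finset.sum_congr rfl fun τ _ => ?_
  rw [Finset.sum_boole]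

theorem card_classes : ∑ i, Fintype.card {v // cl v = i} = Fintype.card V := by
  rw [← Fintype.card_sigma]
  exact Fintype.card_congr (Equiv.sigmaFiberEquiv cl)

theorem momd_gen (hUP : S_UPM) (hLOW : S_LOWM) (hFIB : S_FIB) (hm : 1 ≤ m) (hk : 2 ≤ k)
    (hd : ∀ v, cnt a v = d (cl v)) (hV : Fintype.card V ≤ 2 * m)
    (hD : ∀ i, (d i : ℝ) ≤ 2 * (k * Real.log k - k + 1))
    (hdiv : ∀ i, 2 * (k * (k - 1)) ∣ Fintype.card {v // cl v = i}) :
    ∃ A : Finset (Equiv.Perm (Hf m)),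
      ((2 * m).factorial : ℝ) ≤ (3 * (2 * (m : ℝ) + 1)) ^
        (3 * k ^ 2 + 2 * k + k ^ 2 * Fintype.card ι + k * Fintype.card ι + 2) * A.card ∧
      ∀ π ∈ A, (k : ℝ) ^ Fintype.card V * (1 - 1 / (k : ℝ)) ^ m ≤
        (3 * (2 * (m : ℝ) + 1)) ^
          (3 * k ^ 2 + 2 * k + k ^ 2 * Fintype.card ι + k * Fintype.card ι + 2) *
          (pcol a k π).card := by
  set nI := Fintype.card ι with hnI
  have hk0 : (0 : ℝ) < k := by positivity
  have hm0 : (0 : ℝ) < m := by exact_mod_cast hm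
  set T : ℝ := 3 * (2 * (m : ℝ) + 1) with hT
  have hT3 : 3 ≤ T := by rw [hT]; linarith
  have hT0 : 0 < T := by linarith
  have hT1 : 1 ≤ T := by linarith
  have hq : 0 < 1 - 1 / (k : ℝ) := by
    rw [sub_pos, div_lt_one hk0]
    exact_mod_cast (by omega : 1 < k)
  set q : ℝ := 1 - 1 / (k : ℝ) with hqdef
  set F : ℝ := ((2 * m).factorial : ℝ) with hF
  have hF0 : 0 < F := by positivity
  -- the number of edges
  have hkk : 1 ≤ k * (k - 1) := Nat.mul_pos (by omega) (by omega)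
  obtain ⟨M, hM⟩ : k * (k - 1) ∣ m := by
    have h1 : 2 * (k * (k - 1)) ∣ 2 * m := by
      rw [sum_classes a cl d hd]
      exact Finset.dvd_sum fun i _ => Dvd.dvd.mul_left (hdiv i) _
    exact Nat.dvd_of_mul_dvd_mul_left (by norm_num) h1
  -- sizes of the classes
  have hn : ∀ i, Fintype.card {v // cl v = i} ≤ 2 * m := fun i =>
    (Fintype.card_subtype_le _).trans hV
  have hnT : ∀ i, 3 * ((Fintype.card {v // cl v = i} : ℝ) + 1) ≤ T := by
    intro i
    have : ((Fintype.card {v // cl v = i} : ℕ) : ℝ) ≤ ((2 * m : ℕ) : ℝ) := by exact_mod_cast hn i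
    push_cast at this
    rw [hT]; linarith
  set B : ℝ := ((BS k cl).card : ℝ) with hB
  have hBlow : (k : ℝ) ^ Fintype.card V ≤ T ^ (k * nI) * B := by
    have h1 : B = ∏ i, ((univ.filter fun g : {v // cl v = i} → Fin k => Bal g).card : ℝ) := by
      rw [hB, BS, card_bal]
    rw [h1, ← card_classes cl, ← Finset.prod_pow_eq_pow_sum, pow_mul, hnI, ← card_univ,
      ← Finset.prod_const, ← Finset.prod_mul_distrib]
    refine Finset.prod_le_prod (fun i _ => by positivity) fun i _ => ?_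
    obtain ⟨s, hs⟩ := hdiv i
    have h2 := card_bal_one (X := {v // cl v = i}) (k := k) (s := 2 * (k - 1) * s)
      (by rw [hs]; ring)
    have h3 : (3 * ((Fintype.card {v // cl v = i} : ℝ) + 1)) ^ k ≤ T ^ k :=
      pow_le_pow_left₀ (by positivity) (hnT i) _
    exact h2.trans (mul_le_mul_of_nonneg_right h3 (Nat.cast_nonneg _))
  have hB0 : 0 < B := by
    by_contra hneg
    have h0 : 0 < (k : ℝ) ^ Fintype.card V := by positivity
    have : T ^ (k * nI) * B ≤ 0 := mul_nonpos_of_nonneg_of_nonpos (by positivity) (not_lt.1 hneg)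
    linarith
  -- first moment
  set S1 : ℝ := ∑ π : Equiv.Perm (Hf m), Yb k a cl π with hS1
  have hS1low : B * (F * q ^ m) ≤ T ^ (k ^ 2 + k) * S1 := by
    rw [hS1, sum_Yb, Finset.mul_sum, hB, ← nsmul_eq_mul, ← Finset.sum_const]
    refine Finset.sum_le_sum fun σ hσ => ?_
    have hσ' : ∀ i, Bal (rs cl σ i) := (mem_filter.1 hσ).2
    have h1 := hLOW k M m hk hM (fun h => σ (a h)) (bal_half a cl d hd σ hσ')
    rw [card_Pr]
    exact h1
  -- second moment
  have hY2 : ∑ π : Equiv.Perm (Hf m), Yb k a cl π ^ 2 ≤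
      B * (F * T ^ (k ^ 2) * q ^ (2 * m) * (T ^ (k ^ 2 * nI) * (k : ℝ) ^ Fintype.card V)) := by
    rw [sum_Yb2, hB, ← nsmul_eq_mul, ← Finset.sum_const]
    refine Finset.sum_le_sum fun σ hσ => ?_
    have hσ' : ∀ i, Bal (rs cl σ i) := (mem_filter.1 hσ).2
    have h1 : ∀ τ ∈ BS k cl,
        ((univ.filter fun π : Equiv.Perm (Hf m) => Pr a σ π ∧ Pr a τ π).card : ℝ) ≤
        F * T ^ (k ^ 2) * q ^ (2 * m) *
          ∏ i, Real.exp (Fintype.card {v // cl v = i} *
            ((d i : ℝ) / 2 * ((k : ℝ) / (k - 1)) ^ 2) * ov (rs cl σ i) (rs cl τ i)) := by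
      intro τ hτ
      have h0 := pair_bd a cl d hUP hm hk hd σ τ hσ' (mem_filter.1 hτ).2
      rw [card_Pr2]
      exact h0
    refine (Finset.sum_le_sum h1).trans ?_
    rw [← Finset.mul_sum]
    refine mul_le_mul_of_nonneg_left ?_ (by positivity)
    have h2 : ∑ τ ∈ BS k cl, ∏ i, Real.exp (Fintype.card {v // cl v = i} *
            ((d i : ℝ) / 2 * ((k : ℝ) / (k - 1)) ^ 2) * ov (rs cl σ i) (rs cl τ i)) ≤
        ∑ τ : V → Fin k, ∏ i, Real.exp (Fintype.card {v // cl v = i} *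
            ((d i : ℝ) / 2 * ((k : ℝ) / (k - 1)) ^ 2) * ov (rs cl σ i) (rs cl τ i)) :=
      Finset.sum_le_sum_of_subset_of_nonneg (subset_univ _)
        fun _ _ _ => Finset.prod_nonneg fun _ _ => (Real.exp_pos _).le
    refine h2.trans ?_
    rw [sum_spl cl (fun i g => Real.exp (Fintype.card {v // cl v = i} *
            ((d i : ℝ) / 2 * ((k : ℝ) / (k - 1)) ^ 2) * ov (rs cl σ i) g))]
    have h3 : (k : ℝ) ^ Fintype.card V = ∏ i, (k : ℝ) ^ Fintype.card {v // cl v = i} := by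
      rw [← card_classes cl, ← Finset.prod_pow_eq_pow_sum]
    have h4 : T ^ (k ^ 2 * nI) = ∏ _i : ι, T ^ (k ^ 2) := by
      rw [Finset.prod_const, card_univ, pow_mul]
    rw [h3, h4, ← Finset.prod_mul_distrib]
    refine Finset.prod_le_prod (fun i _ => Finset.sum_nonneg fun _ _ => (Real.exp_pos _).le)
      fun i _ => ?_
    have h5 := hFIB k (d i) hk (hD i) {v // cl v = i} (rs cl σ i) (hσ' i)
    refine h5.trans (mul_le_mul_of_nonneg_right ?_ (by positivity))
    refine pow_le_pow_left₀ (by positivity) ?_ _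
    have := hnT i
    have h6 : (0 : ℝ) ≤ Fintype.card {v // cl v = i} := Nat.cast_nonneg _
    linarith
  have hpz := pz (Yb k a cl (m := m)) (fun π => by rw [Yb]; positivity)
  have hcardP : Fintype.card (Equiv.Perm (Hf m)) = (2 * m).factorial := by
    rw [Fintype.card_perm, Fintype.card_prod, Fintype.card_fin, Fintype.card_bool, mul_comm]
  rw [hcardP, ← hS1] at hpz
  set A := univ.filter fun π : Equiv.Perm (Hf m) =>
    S1 ≤ 2 * ((2 * m).factorial : ℝ) * Yb k a cl π with hA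
  have hS1q := hpz.trans (mul_le_mul_of_nonneg_left hY2 (by positivity))
  have hAm : ∀ π ∈ A, S1 ≤ 2 * F * Yb k a cl π := fun π hπ => (mem_filter.1 hπ).2
  have hYp : ∀ π, Yb k a cl π ≤ (pcol a k π).card := by
    intro π
    rw [Yb]
    have : (BS k cl).filter (fun σ => Pr a σ π) ⊆ pcol a k π := by
      intro σ hσ
      exact mem_filter.2 ⟨mem_univ _, (mem_filter.1 hσ).2⟩
    exact_mod_cast card_le_card this
  clear hY2 hpz
  clear_value A S1 T q B F
  set P : ℝ := (k : ℝ) ^ Fintype.card V with hP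
  have hP0 : 0 < P := by positivity
  refine ⟨A, ?_, ?_⟩
  · have h2 : (B * (F * q ^ m)) ^ 2 ≤ (T ^ (k ^ 2 + k)) ^ 2 * S1 ^ 2 := by
      rw [← mul_pow]
      exact pow_le_pow_left₀ (by positivity) hS1low 2
    have h3 : (B * (F * q ^ m)) ^ 2 ≤ (T ^ (k ^ 2 + k)) ^ 2 *
        (4 * (A.card : ℝ) * (B * (F * T ^ (k ^ 2) * q ^ (2 * m) *
          (T ^ (k ^ 2 * nI) * (T ^ (k * nI) * B))))) := by
      refine h2.trans (mul_le_mul_of_nonneg_left (hS1q.trans ?_) (by positivity))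
      gcongr
    set W : ℝ := B ^ 2 * F * q ^ (2 * m) with hW
    have hW0 : 0 < W := by positivity
    have e1 : (B * (F * q ^ m)) ^ 2 = F * W := by
      rw [hW, pow_mul']
      ring
    have e2 : (T ^ (k ^ 2 + k)) ^ 2 *
        (4 * (A.card : ℝ) * (B * (F * T ^ (k ^ 2) * q ^ (2 * m) *
          (T ^ (k ^ 2 * nI) * (T ^ (k * nI) * B))))) =
        (4 * T ^ (3 * k ^ 2 + 2 * k + k ^ 2 * nI + k * nI) * A.card) * W := by
      rw [hW]
      have e3 : T ^ (3 * k ^ 2 + 2 * k + k ^ 2 * nI + k * nI) =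
          (T ^ (k ^ 2 + k)) ^ 2 * T ^ (k ^ 2) * T ^ (k ^ 2 * nI) * T ^ (k * nI) := by
        rw [← pow_mul, ← pow_add, ← pow_add, ← pow_add]
        congr 1
        ring
      rw [e3]
      generalize T ^ (k ^ 2 + k) = t1
      generalize T ^ (k ^ 2) = t2
      generalize T ^ (k ^ 2 * nI) = t3
      generalize T ^ (k * nI) = t4
      generalize q ^ (2 * m) = t5
      ring
    rw [e1, e2] at h3
    have h4 := le_of_mul_le_mul_right h3 hW0
    refine h4.trans ?_
    have h5 : (4 : ℝ) ≤ T ^ 2 := by nlinarith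
    calc 4 * T ^ (3 * k ^ 2 + 2 * k + k ^ 2 * nI + k * nI) * (A.card : ℝ)
        ≤ T ^ 2 * T ^ (3 * k ^ 2 + 2 * k + k ^ 2 * nI + k * nI) * (A.card : ℝ) := by gcongr
      _ = _ := by rw [pow_add T _ 2]; ring
  · intro π hπ
    have h1 := hAm π hπ
    set c : ℝ := ((pcol a k π).card : ℝ) with hc
    have hc0 : 0 ≤ c := Nat.cast_nonneg _
    have h3 : S1 ≤ 2 * F * c := by
      refine h1.trans ?_
      exact mul_le_mul_of_nonneg_left (hYp π) (by positivity)
    have h4 : F * (B * q ^ m) ≤ F * (T ^ (k ^ 2 + k) * (2 * c)) := by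
      calc F * (B * q ^ m) = B * (F * q ^ m) := by ring
        _ ≤ T ^ (k ^ 2 + k) * S1 := hS1low
        _ ≤ T ^ (k ^ 2 + k) * (2 * F * c) := mul_le_mul_of_nonneg_left h3 (by positivity)
        _ = _ := by ring
    have h5 := le_of_mul_le_mul_left h4 hF0
    have h6 : P * q ^ m ≤ 2 * T ^ (k * nI + (k ^ 2 + k)) * c := by
      calc P * q ^ m ≤ (T ^ (k * nI) * B) * q ^ m :=
            mul_le_mul_of_nonneg_right hBlow (by positivity)
        _ = T ^ (k * nI) * (B * q ^ m) := by ring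
        _ ≤ T ^ (k * nI) * (T ^ (k ^ 2 + k) * (2 * c)) :=
            mul_le_mul_of_nonneg_left h5 (by positivity)
        _ = _ := by rw [pow_add]; ring
    refine h6.trans (mul_le_mul_of_nonneg_right ?_ hc0)
    calc 2 * T ^ (k * nI + (k ^ 2 + k)) ≤ T * T ^ (k * nI + (k ^ 2 + k)) := by
          gcongr; linarith
      _ = T ^ (k * nI + (k ^ 2 + k) + 1) := by rw [pow_succ]; ring
      _ ≤ _ := by
          refine pow_le_pow_right₀ hT1 ?_
          nlinarith [Nat.zero_le (k ^ 2 * nI), Nat.zero_le (k ^ 2), Nat.zero_le nI,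
            Nat.zero_le (k * nI)]

end

/-- **MOMD** -/
theorem proof_MOMD (hUP : S_UPM) (hLOW : S_LOWM) (hFIB : S_FIB) : S_MOMD := by
  intro k Δ hk hD
  refine ⟨3 * k ^ 2 + 2 * k + k ^ 2 * (Δ + 1) + k * (Δ + 1) + 2, ?_⟩
  intro V _ m a hm h1 hΔ hdiv
  have hV : Fintype.card V ≤ 2 * m := by
    have h2 : ∑ v, cnt a v = 2 * m := by
      rw [Pool.Agent.N404.LF.sum_cnt, Fintype.card_prod, Fintype.card_fin, Fintype.card_bool,
        mul_comm]
    rw [← h2, ← card_univ, Finset.card_eq_sum_ones]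
    exact Finset.sum_le_sum fun v _ => h1 v
  have h := momd_gen a (ι := Fin (Δ + 1)) (fun v => ⟨cnt a v, Nat.lt_succ_of_le (hΔ v)⟩)
    (fun i => i.val) hUP hLOW hFIB hm hk (fun v => rfl) hV (fun i => ?_) (fun i => ?_)
  · rw [Fintype.card_fin] at h
    exact h
  · have : (i.val : ℝ) ≤ Δ := by exact_mod_cast Nat.le_of_lt_succ i.2
    exact this.trans hD
  · have h3 := hdiv i.val
    rw [Fintype.card_subtype]
    convert h3 using 3
    exact Fin.ext_iff

end Pool.Agent.L0h98.GS
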