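import Pool.Agent.L0h98.GS.Main
import Pool.Agent.L0h98.GS.Mom3
import Pool.Agent.L0h98.GS.Iso
import Pool.Agent.L0h47.GS.CYC
import Pool.Agent.L0h47.GS.SPM
import Pool.Agent.L0h47.GS.UPM
import Pool.Agent.L0h28.GS.Greedy
import Pool.Agent.L0h28.GS.Swi
import Pool.Agent.L0h85.GS.Conf
import Pool.Agent.L0h85.GS.Gir
import Pool.Agent.L0h85.GS.IsoDeg
import Pool.Agent.L0h60.GS.LOWM
import Pool.Agent.N404.LF.Fin
import Pool.Agent.N404.LF.Num
import Pool.Agent.N404.LF.Asy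

set_option autoImplicit false

/-! The final statements. -/

namespace Pool.Agent.L0h98.GS

open Finset Classical
open Pool.Agent.N404.LF (cnt sum_cnt)

theorem main2 : S_MAIN2 :=
  proof_MAIN2 (proof_MAIND (proof_MOMD Pool.Agent.L0h47.GS.t_UPM Pool.Agent.L0h60.GS.t_LOWM
    Pool.Agent.N487.LF_FIB.main) Pool.Agent.L0h85.GS.t_ISOM Pool.Agent.L0h47.GS.t_SPM
    Pool.Agent.L0h85.GS.t_DEGM Pool.Agent.N438.LFEV.main)

/-- `c(G, q) ≥ (1 - 1/q)^m ((1 - η) q)^n`. -/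
def Bd {V : Type} (G : SimpleGraph V) (q : ℕ) (η : ℝ) : Prop :=
  (1 - 1 / (q : ℝ)) ^ Nat.card G.edgeSet * ((1 - η) * q) ^ Nat.card V ≤
    (Nat.card (G.Coloring (Fin q)) : ℝ)

/-- the degrees -/
def Dg {V : Type} (G : SimpleGraph V) (d : V → ℕ) : Prop := ∀ v, (G.neighborSet v).ncard = d v

theorem sum_two {V : Type} [Fintype V] {m : ℕ} (a : Hf m → V) : ∑ v, cnt a v = 2 * m := by
  rw [sum_cnt, Fintype.card_prod, Fintype.card_fin, Fintype.card_bool, mul_comm]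

theorem exists_a {V : Type} [Fintype V] (d : V → ℕ) (m : ℕ) (h : ∑ v, d v = 2 * m) :
    ∃ a : Hf m → V, ∀ v, cnt a v = d v := by
  have hc : Fintype.card (Hf m) = Fintype.card (Σ v, Fin (d v)) := by
    rw [Fintype.card_prod, Fintype.card_fin, Fintype.card_bool, Fintype.card_sigma, mul_comm, ← h]
    simp
  have e := Fintype.equivOfCardEq hc
  refine ⟨fun x => (e x).1, fun v => ?_⟩
  unfold cnt
  have h1 : (univ.filter fun x : Hf m => (e x).1 = v).card =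
      (univ.filter fun y : (Σ v, Fin (d v)) => y.1 = v).card := by
    refine Finset.card_equiv e fun x => ?_
    simp
  have h2 : (univ.filter fun y : (Σ v, Fin (d v)) => y.1 = v).card = d v := by
    have : (univ.filter fun y : (Σ v, Fin (d v)) => y.1 = v) =
        (univ : Finset (Fin (d v))).map ⟨fun j => ⟨v, j⟩, fun j j' hj => by
          simpa using hj⟩ := by
      ext y
      rw [mem_filter, mem_map]
      constructor
      · rintro ⟨-, h⟩
        obtain ⟨w, j⟩ := y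
        subst h
        exact ⟨j, mem_univ _, rfl⟩
      · rintro ⟨j, -, rfl⟩
        exact ⟨mem_univ _, rfl⟩
    rw [this, card_map, card_univ, Fintype.card_fin]
  rw [← h2, ← h1]

theorem even_sum {V : Type} [Fintype V] (G : SimpleGraph V) (d : V → ℕ) (h : Dg G d) :
    Even (∑ v, d v) := by
  have h1 : ∀ v, d v = G.degree v := by
    intro v
    rw [← h v, Set.ncard_eq_toFinset_card']
    rfl
  rw [Finset.sum_congr rfl fun v _ => h1 v, G.sum_degrees_eq_twice_card_edges]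
  exact even_two_mul _

/-- transfer between configurations and graphs -/
theorem transfer {V : Type} [Fintype V] {m : ℕ} (a : Hf m → V) {F : ℕ}
    (hF : ∀ G : SimpleGraph V, (∀ v, (G.neighborSet v).ncard = cnt a v) →
      (univ.filter fun π : Equiv.Perm (Hf m) => Sim a π ∧ Cg a π = G).card = F)
    (hS : ∀ π : Equiv.Perm (Hf m), Sim a π → (∀ v, ((Cg a π).neighborSet v).ncard = cnt a v))
    (Q : SimpleGraph V → Prop) :
    (univ.filter fun π : Equiv.Perm (Hf m) => Sim a π ∧ Q (Cg a π)).card =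
      F * {G : SimpleGraph V | Dg G (cnt a) ∧ Q G}.ncard := by
  set S : Set (SimpleGraph V) := {G : SimpleGraph V | Dg G (cnt a) ∧ Q G} with hSdef
  have hfin : S.Finite := Set.toFinite S
  rw [Set.ncard_eq_toFinset_card S hfin]
  rw [Finset.card_eq_sum_card_fiberwise (f := fun π => Cg a π)
    (s := univ.filter fun π : Equiv.Perm (Hf m) => Sim a π ∧ Q (Cg a π)) (t := hfin.toFinset) ?_]
  · rw [Finset.sum_congr rfl (g := fun _ => F), Finset.sum_const, smul_eq_mul, mul_comm]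
    intro G hG
    rw [Set.Finite.mem_toFinset] at hG
    rw [← hF G hG.1]
    congr 1
    ext π
    rw [mem_filter, mem_filter, mem_filter]
    constructor
    · rintro ⟨⟨-, h1, h2⟩, h3⟩
      exact ⟨mem_univ _, h1, h3⟩
    · rintro ⟨-, h1, h3⟩
      exact ⟨⟨mem_univ _, h1, by rw [h3]; exact hG.2⟩, h3⟩
  · intro π hπ
    have h1 := (mem_filter.1 (mem_coe.1 hπ)).2
    rw [Set.Finite.coe_toFinset]
    exact ⟨hS π h1.1, h1.2⟩

/-- many colours -/
theorem bd_many {V : Type} [Fintype V] (G : SimpleGraph V) (Δ q : ℕ) (η : ℝ)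
    (hΔ : ∀ v, (G.neighborSet v).ncard ≤ Δ) (hη : 0 < η) (hη1 : η < 1) (h : (Δ : ℝ) ≤ η * q) :
    Bd G q η := by
  have h1 := Pool.Agent.L0h28.GS.t_GREEDY V G Δ q η hΔ hη hη1 h
  unfold Bd
  rw [Nat.card_eq_fintype_card (α := V)]
  refine le_trans ?_ h1
  have h2 : (0 : ℝ) ≤ ((1 - η) * q) ^ Fintype.card V :=
    pow_nonneg (mul_nonneg (by linarith) (Nat.cast_nonneg _)) _
  refine mul_le_of_le_one_left h2 ?_
  rcases Nat.eq_zero_or_pos q with rfl | hq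
  · simp
  · have hq' : (1 : ℝ) ≤ q := by exact_mod_cast hq
    have h3 : 0 ≤ 1 - 1 / (q : ℝ) := by
      rw [sub_nonneg, div_le_one (by linarith)]
      exact hq'
    refine pow_le_one₀ h3 ?_
    have : 0 < 1 / (q : ℝ) := by positivity
    linarith

/-- the main estimate, for finitely many numbers of colours -/
theorem core (Δ g : ℕ) (Qs : Finset ℕ) (η : ℕ → ℝ)
    (hQ : ∀ q ∈ Qs, 30 ≤ q ∧ (Δ : ℝ) ≤ 2 * q * Real.log q - 3 * q ∧
      ∀ (V : Type) (G : SimpleGraph V), Bd G q (5 / q + 3 * Δ / (q : ℝ) ^ 2) → Bd G q (η q)) :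
    ∃ M₀ : ℕ, ∀ (V : Type) [Fintype V] (d : V → ℕ), (∀ v, d v ≤ Δ) → M₀ ≤ ∑ v, d v →
      (Even (∑ v, d v) → ∃ G : SimpleGraph V, Dg G d ∧ GirthGt G g) ∧
      ∀ P : SimpleGraph V → Prop, (∀ G, GirthGt G g → P G) →
        ((∑ v, d v : ℕ) : ℝ) ^ (1 / 4 : ℝ) *
          ({G : SimpleGraph V | Dg G d ∧ P G ∧ ∃ q ∈ Qs, ¬ Bd G q (η q)}.ncard : ℝ) ≤
        ({G : SimpleGraph V | Dg G d ∧ P G}.ncard : ℝ) := by
  obtain ⟨C, m₁, hC⟩ := Pool.Agent.L0h28.GS.t_SWI Pool.Agent.L0h47.GS.t_CYC Δ (max g 2)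
  have hq : ∀ q ∈ Qs, ∃ m₀ : ℕ, ∀ (V : Type) [Fintype V] (m : ℕ) (a : Hf m → V), m₀ ≤ m →
    (∀ v, cnt a v ≤ Δ) →
    (m : ℝ) ^ (1 / 3 : ℝ) * ((univ.filter fun π : Equiv.Perm (Hf m) =>
      Sim a π ∧ ¬ Bd (Cg a π) q (η q)).card : ℝ) ≤ ((2 * m).factorial : ℝ) := by
    intro q hqQ
    obtain ⟨h30, hD, hmono⟩ := hQ q hqQ
    have hq0 : (0 : ℝ) < q := by positivity
    have hq30 : (30 : ℝ) ≤ q := by exact_mod_cast h30
    have hnum0 := (Pool.Agent.N404.LF.proof_NUM q 0 0 Δ h30 (Nat.cast_nonneg _) hD (by simp)).1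
    have hθ0 : (0 : ℝ) < 1 / q := by positivity
    have hθ1 : 1 / (q : ℝ) < 1 := by
      rw [div_lt_one hq0]; linarith
    obtain ⟨m₀, hm₀⟩ := main2 (q - 4) Δ (1 / q) (by omega) hnum0 hθ0 hθ1
    refine ⟨m₀, fun V _ m a hm hΔ => ?_⟩
    refine le_trans (mul_le_mul_of_nonneg_left (Nat.cast_le.2 (card_le_card ?_))
      (by positivity)) (hm₀ V m a hm hΔ)
    intro π hπ
    rw [mem_filter] at hπ ⊢
    refine ⟨mem_univ _, fun hcon => hπ.2.2 (hmono V _ ?_)⟩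
    have h4 : q - 4 + 4 = q := by omega
    rw [h4] at hcon
    unfold Bd
    refine le_trans ?_ hcon
    have hedge := ((Pool.Agent.L0h85.GS.t_CONF V m a).2 π hπ.2.1).2
    rw [hedge, Nat.card_eq_fintype_card (α := V)]
    refine (Pool.Agent.N404.LF.proof_NUM q (Fintype.card V) m Δ h30 (Nat.cast_nonneg _) hD ?_).2
    have h5 : 2 * m ≤ Fintype.card V * Δ := by
      rw [← sum_two a]
      refine (sum_le_card_nsmul _ _ Δ fun v _ => hΔ v).trans ?_
      rw [card_univ, smul_eq_mul]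
    have h6 : ((2 * m : ℕ) : ℝ) ≤ ((Fintype.card V * Δ : ℕ) : ℝ) := by exact_mod_cast h5
    push_cast at h6
    linarith
  choose! m₀ hm₀ using hq
  set K : ℕ := Qs.card * C + 1 with hK
  refine ⟨2 * (m₁ + 1 + (∑ q ∈ Qs, m₀ q) + (2 * K) ^ 12), fun V _ d hd hM => ?_⟩
  by_cases heven : Even (∑ v, d v)
  swap
  · refine ⟨fun h => absurd h heven, fun P _ => ?_⟩
    have h1 : {G : SimpleGraph V | Dg G d ∧ P G ∧ ∃ q ∈ Qs, ¬ Bd G q (η q)} = ∅ := by
      rw [Set.eq_empty_iff_forall_notMem]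
      rintro G ⟨h, -⟩
      exact heven (even_sum G d h)
    rw [h1, Set.ncard_empty, Nat.cast_zero, mul_zero]
    exact Nat.cast_nonneg _
  obtain ⟨m, hm⟩ := even_iff_exists_two_mul.1 heven
  rw [hm] at hM ⊢
  obtain ⟨a, ha⟩ := exists_a d m hm
  have hd' : cnt a = d := funext ha
  subst hd'
  obtain ⟨⟨F, hF⟩, hS⟩ := Pool.Agent.L0h85.GS.t_CONF V m a
  have hS' : ∀ π : Equiv.Perm (Hf m), Sim a π → (∀ v, ((Cg a π).neighborSet v).ncard = cnt a v) :=
    fun π hπ => (hS π hπ).1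
  have hbad := hC V m a (by omega) hd
  -- graphs of large girth
  have hgir : (univ.filter fun π : Equiv.Perm (Hf m) => ∀ i, ¬ Bad (max g 2) a π i).card ≤
      (univ.filter fun π : Equiv.Perm (Hf m) => Sim a π ∧ GirthGt (Cg a π) g).card := by
    refine card_le_card fun π hπ => ?_
    rw [mem_filter] at hπ ⊢
    obtain ⟨h1, h2⟩ := Pool.Agent.L0h85.GS.t_GIR V m a π (max g 2) (le_max_right _ _) hπ.2
    exact ⟨mem_univ _, h1, fun v c hc => lt_of_le_of_lt (le_max_left _ _) (h2 v c hc)⟩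
  have hfacpos : 0 < (2 * m).factorial := Nat.factorial_pos _
  have hpos : 0 < (univ.filter fun π : Equiv.Perm (Hf m) =>
      Sim a π ∧ GirthGt (Cg a π) g).card := by
    by_contra hcon
    have h0 : (univ.filter fun π : Equiv.Perm (Hf m) => Sim a π ∧ GirthGt (Cg a π) g).card = 0 := by
      omega
    rw [h0] at hgir
    have h1 : (univ.filter fun π : Equiv.Perm (Hf m) => ∀ i, ¬ Bad (max g 2) a π i).card = 0 := by
      omega
    rw [h1, mul_zero] at hbad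
    omega
  refine ⟨fun _ => ?_, fun P hP => ?_⟩
  · obtain ⟨π, hπ⟩ := Finset.card_pos.1 hpos
    rw [mem_filter] at hπ
    exact ⟨Cg a π, hS' π hπ.2.1, hπ.2.2⟩
  have htall := transfer a hF hS' P
  have hall : (2 * m).factorial ≤ C * (F * {G : SimpleGraph V | Dg G (cnt a) ∧ P G}.ncard) := by
    refine hbad.trans (Nat.mul_le_mul_left _ ?_)
    rw [← htall]
    refine hgir.trans (card_le_card fun π hπ => ?_)
    rw [mem_filter] at hπ ⊢
    exact ⟨mem_univ _, hπ.2.1, hP _ hπ.2.2⟩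
  have hFpos : 0 < F := by
    rcases Nat.eq_zero_or_pos F with h0 | h0
    · rw [h0, zero_mul, mul_zero] at hall; omega
    · exact h0
  have htbad := transfer a hF hS' (fun G => P G ∧ ∃ q ∈ Qs, ¬ Bd G q (η q))
  set X := {G : SimpleGraph V | Dg G (cnt a) ∧ P G}.ncard with hX
  set Y := {G : SimpleGraph V | Dg G (cnt a) ∧ P G ∧ ∃ q ∈ Qs, ¬ Bd G q (η q)}.ncard with hY
  have hle0 : ∀ Q : SimpleGraph V → Prop, (∀ G, Q G → ∃ q ∈ Qs, ¬ Bd G q (η q)) →
      (univ.filter fun π : Equiv.Perm (Hf m) => Sim a π ∧ Q (Cg a π)).card ≤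
      ∑ q ∈ Qs, (univ.filter fun π : Equiv.Perm (Hf m) =>
        Sim a π ∧ ¬ Bd (Cg a π) q (η q)).card := by
    intro Q hQ'
    refine le_trans (card_le_card ?_) card_biUnion_le
    intro π hπ
    rw [mem_filter] at hπ
    obtain ⟨-, h1, h2⟩ := hπ
    obtain ⟨q, hqQ, h3⟩ := hQ' _ h2
    rw [mem_biUnion]
    exact ⟨q, hqQ, by rw [mem_filter]; exact ⟨mem_univ _, h1, h3⟩⟩
  have hle : F * Y ≤ ∑ q ∈ Qs, (univ.filter fun π : Equiv.Perm (Hf m) =>
      Sim a π ∧ ¬ Bd (Cg a π) q (η q)).card := by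
    rw [← htbad]
    exact hle0 (fun G => P G ∧ ∃ q ∈ Qs, ¬ Bd G q (η q)) fun G h => h.2
  have hmpos : (0 : ℝ) < m := by
    have : 0 < m := by omega
    exact_mod_cast this
  set ν : ℝ := (m : ℝ) ^ (1 / 3 : ℝ) with hν
  have hν0 : 0 < ν := Real.rpow_pos_of_pos hmpos _
  have h1 : ν * ((F : ℝ) * Y) ≤ Qs.card * ((2 * m).factorial : ℝ) := by
    calc ν * ((F : ℝ) * Y) ≤ ν * ∑ q ∈ Qs, ((univ.filter fun π : Equiv.Perm (Hf m) =>
          Sim a π ∧ ¬ Bd (Cg a π) q (η q)).card : ℝ) := by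
          refine mul_le_mul_of_nonneg_left ?_ hν0.le
          exact_mod_cast hle
      _ = ∑ q ∈ Qs, ν * ((univ.filter fun π : Equiv.Perm (Hf m) =>
          Sim a π ∧ ¬ Bd (Cg a π) q (η q)).card : ℝ) := Finset.mul_sum _ _ _
      _ ≤ ∑ q ∈ Qs, ((2 * m).factorial : ℝ) := by
          refine Finset.sum_le_sum fun q hqQ => hm₀ q hqQ V m a ?_ hd
          have := Finset.single_le_sum (f := m₀) (fun _ _ => Nat.zero_le _) hqQ
          omega
      _ = _ := by rw [Finset.sum_const, nsmul_eq_mul]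
  have h2 : ((2 * m).factorial : ℝ) ≤ C * (F * X) := by exact_mod_cast hall
  have h3 : ν * (Y : ℝ) ≤ K * X := by
    have h4 : (F : ℝ) * (ν * Y) ≤ F * (K * X) := by
      calc (F : ℝ) * (ν * Y) = ν * (F * Y) := by ring
        _ ≤ Qs.card * ((2 * m).factorial : ℝ) := h1
        _ ≤ Qs.card * (C * (F * X)) := mul_le_mul_of_nonneg_left h2 (Nat.cast_nonneg _)
        _ = F * ((Qs.card * C) * X) := by ring
        _ ≤ F * (K * X) := by
            rw [hK]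
            push_cast
            have h5 : (0 : ℝ) ≤ F * X := by positivity
            nlinarith
    exact le_of_mul_le_mul_left h4 (by exact_mod_cast hFpos)
  -- numbers
  have hK1 : (1 : ℝ) ≤ K := by exact_mod_cast (by omega : 1 ≤ K)
  have h5 : (2 * (K : ℝ)) ≤ (m : ℝ) ^ (1 / 12 : ℝ) := by
    have h6 : ((2 * K : ℕ) : ℝ) ^ (12 : ℕ) ≤ m := by
      have : (2 * K) ^ 12 ≤ m := by omega
      exact_mod_cast this
    have h7 : (((2 * K : ℕ) : ℝ) ^ (12 : ℕ)) ^ (1 / 12 : ℝ) ≤ (m : ℝ) ^ (1 / 12 : ℝ) :=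
      Real.rpow_le_rpow (by positivity) h6 (by norm_num)
    rw [← Real.rpow_natCast, ← Real.rpow_mul (by positivity)] at h7
    norm_num at h7
    convert h7 using 2
  have h6 : ((2 * m : ℕ) : ℝ) ^ (1 / 4 : ℝ) * K ≤ ν := by
    have e1 : ((2 * m : ℕ) : ℝ) ^ (1 / 4 : ℝ) = (2 : ℝ) ^ (1 / 4 : ℝ) * (m : ℝ) ^ (1 / 4 : ℝ) := by
      push_cast
      exact Real.mul_rpow (by norm_num) hmpos.le
    have e2 : (2 : ℝ) ^ (1 / 4 : ℝ) ≤ 2 := by
      calc (2 : ℝ) ^ (1 / 4 : ℝ) ≤ (2 : ℝ) ^ (1 : ℝ) :=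
            Real.rpow_le_rpow_of_exponent_le (by norm_num) (by norm_num)
        _ = 2 := Real.rpow_one 2
    have e3 : ν = (m : ℝ) ^ (1 / 4 : ℝ) * (m : ℝ) ^ (1 / 12 : ℝ) := by
      rw [hν, ← Real.rpow_add hmpos]; norm_num
    have e4 : (0 : ℝ) < (m : ℝ) ^ (1 / 4 : ℝ) := Real.rpow_pos_of_pos hmpos _
    rw [e1, e3]
    calc (2 : ℝ) ^ (1 / 4 : ℝ) * (m : ℝ) ^ (1 / 4 : ℝ) * K
        ≤ 2 * (m : ℝ) ^ (1 / 4 : ℝ) * K := by gcongr
      _ = (m : ℝ) ^ (1 / 4 : ℝ) * (2 * K) := by ring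
      _ ≤ _ := mul_le_mul_of_nonneg_left h5 e4.le
  have hY0 : (0 : ℝ) ≤ Y := Nat.cast_nonneg _
  have hK0 : (0 : ℝ) < K := by linarith
  have h7 : (K : ℝ) * (((2 * m : ℕ) : ℝ) ^ (1 / 4 : ℝ) * Y) ≤ K * X := by
    calc (K : ℝ) * (((2 * m : ℕ) : ℝ) ^ (1 / 4 : ℝ) * Y) =
          (((2 * m : ℕ) : ℝ) ^ (1 / 4 : ℝ) * K) * Y := by ring
      _ ≤ ν * Y := mul_le_mul_of_nonneg_right h6 hY0
      _ ≤ K * X := h3
  exact le_of_mul_le_mul_left h7 hK0

end Pool.Agent.L0h98.GS
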