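import Pool.Agent.L0h98.GS.Count
import Pool.Agent.N404.LF.Main

set_option autoImplicit false

/-! The main count for almost all configurations. -/

namespace Pool.Agent.L0h98.GS

open Finset Classical
open Pool.Agent.N404.LF (cnt Bal ov S_EV fact_ratio sum_cnt)

theorem proof_MAIND (hMOM : S_MOMD) (hISO : S_ISOM) (hSPM : S_SPM) (hDEG : S_DEGM)
    (hEV : S_EV) : S_MAIND := by
  intro k Δ θ hk hD hθ0 hθ1
  obtain ⟨C, hC⟩ := hMOM k Δ hk hD
  obtain ⟨C₁, hC₁⟩ := hSPM Δ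
  set c₀ := (Δ + 1) * (2 * (k * (k - 1))) with hc₀
  set L₂ := Δ * c₀ with hL₂
  set K := C + L₂ with hK
  have hkk : 2 ≤ k ^ (2 * (Δ + 1)) := by
    calc 2 ≤ k := hk
      _ = k ^ 1 := (pow_one k).symm
      _ ≤ _ := Nat.pow_le_pow_right (by omega) (by omega)
  obtain ⟨N₀, hN₀⟩ := hEV (k ^ (2 * (Δ + 1))) (2 * C * (Δ + 1)) (2 * K) c₀ (2 * C₁) 0 (1 / 36) θ
    hkk (by norm_num) hθ0 hθ1
  refine ⟨max N₀ (L₂ + 1), fun V _ m a hm h1 hΔ => ?_⟩
  have hmN₀ : N₀ ≤ m := (le_max_left _ _).trans hm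
  have hmL : L₂ + 1 ≤ m := (le_max_right _ _).trans hm
  have hm1 : 1 ≤ m := by omega
  obtain ⟨ev1, ev2, ev3, -, ev5⟩ := hN₀ m hmN₀
  obtain ⟨W, m', hmm, β, a', hW1, hW2, hβ, ha', hcnt, hdiv⟩ := exists_data a k Δ hk hΔ
  rw [← hc₀] at hW1 hW2
  rw [← hL₂] at hW2
  have hm'1 : 1 ≤ m' := by omega
  obtain ⟨A', hA1, hA2⟩ := hC {v // v ∈ W} m' a' hm'1 (fun v => by rw [hcnt]; exact h1 _)
    (fun v => by rw [hcnt]; exact hΔ _) hdiv
  have hm0 : (0 : ℝ) ≤ m := Nat.cast_nonneg _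
  have hmpos : (0 : ℝ) < m := by exact_mod_cast hm1
  set T : ℝ := 3 * (2 * (m : ℝ) + 1) with hT
  have hT3 : 3 ≤ T := by rw [hT]; linarith
  have hT1 : 1 ≤ T := by linarith
  have hT0 : 0 < T := by linarith
  have hmT : 2 * (m : ℝ) ≤ T := by rw [hT]; linarith
  have hTsq : T ≤ (3 * ((m : ℝ) + 1)) ^ 2 := by rw [hT]; nlinarith
  have hT' : 3 * (2 * (m' : ℝ) + 1) ≤ T := by
    have : (m' : ℝ) ≤ m := by exact_mod_cast hmm
    rw [hT]; linarith
  have hTpow : (3 * (2 * (m' : ℝ) + 1)) ^ C ≤ T ^ C := pow_le_pow_left₀ (by positivity) hT' C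
  set A : Finset (Equiv.Perm (Hf m)) := A'.image (fun π => (ex hmm π).trans β) with hA
  have hAc : A.card = A'.card := by
    refine Finset.card_image_of_injective _ ?_
    intro π π' hp
    refine ex_inj hmm (Equiv.ext fun x => β.injective ?_)
    exact congrArg (fun e : Equiv.Perm (Hf m) => e x) hp
  set F : ℝ := ((2 * m).factorial : ℝ) with hF
  have hF0 : 0 < F := by positivity
  have hFA : F ≤ T ^ K * A.card := by
    have h2 : F ≤ ((2 * m').factorial : ℝ) * (2 * (m : ℝ)) ^ L₂ := by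
      have := fact_ratio (N' := 2 * m') (N := 2 * m) (L := L₂) (by omega) (by omega) (by omega)
      rw [hF]
      exact_mod_cast this
    calc F ≤ ((2 * m').factorial : ℝ) * (2 * (m : ℝ)) ^ L₂ := h2
      _ ≤ ((3 * (2 * (m' : ℝ) + 1)) ^ C * A'.card) * (2 * (m : ℝ)) ^ L₂ :=
          mul_le_mul_of_nonneg_right hA1 (by positivity)
      _ ≤ (T ^ C * A'.card) * T ^ L₂ := by gcongr
      _ = _ := by rw [hAc, hK, pow_add]; ring
  set τ : ℝ := (m : ℝ) ^ (3 / 5 : ℝ) with hτ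
  have hτ0 : 0 < τ := Real.rpow_pos_of_pos hmpos _
  set B1 := univ.filter fun π : Equiv.Perm (Hf m) => ∀ π' ∈ A,
    τ ≤ ((univ.filter fun x => π x ≠ π' x).card : ℝ) with hB1
  have hB1c : (B1.card : ℝ) ≤ F * (T ^ K * Real.exp (-(1 / 36 * (m : ℝ) ^ (1 / 5 : ℝ)))) := by
    have h1 := hISO m A τ hτ0.le
    have h2 : Real.exp (-(τ ^ 2 / (36 * m))) ≤
        Real.exp (-(1 / 36 * (m : ℝ) ^ (1 / 5 : ℝ))) := by
      refine Real.exp_le_exp.2 (neg_le_neg ?_)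
      have e1 : τ ^ 2 = m * (m : ℝ) ^ (1 / 5 : ℝ) := by
        rw [hτ, ← Real.rpow_natCast, ← Real.rpow_mul hm0]
        nth_rewrite 2 [← Real.rpow_one (m : ℝ)]
        rw [← Real.rpow_add hmpos]
        norm_num
      rw [e1]
      have e2 : (m : ℝ) * (m : ℝ) ^ (1 / 5 : ℝ) / (36 * m) = 1 / 36 * (m : ℝ) ^ (1 / 5 : ℝ) := by
        field_simp
      rw [e2]
    have h3 : F * (B1.card : ℝ) ≤
        F * (F * (T ^ K * Real.exp (-(1 / 36 * (m : ℝ) ^ (1 / 5 : ℝ))))) := by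
      calc F * (B1.card : ℝ) ≤ (T ^ K * A.card) * B1.card :=
            mul_le_mul_of_nonneg_right hFA (Nat.cast_nonneg _)
        _ = T ^ K * ((A.card : ℝ) * B1.card) := by ring
        _ ≤ T ^ K * (F ^ 2 * Real.exp (-(τ ^ 2 / (36 * m)))) :=
            mul_le_mul_of_nonneg_left h1 (by positivity)
        _ ≤ T ^ K * (F ^ 2 * Real.exp (-(1 / 36 * (m : ℝ) ^ (1 / 5 : ℝ)))) := by gcongr
        _ = _ := by ring
    exact le_of_mul_le_mul_left h3 hF0
  set t := ⌈(m : ℝ) ^ (3 / 5 : ℝ)⌉₊ with ht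
  set s := 2 * t + c₀ with hs
  set B2 := univ.filter fun π : Equiv.Perm (Hf m) => ∃ U : Finset V,
      U.Nonempty ∧ U.card ≤ s ∧ 2 * U.card ≤ eC a π U with hB2
  have hB2c : (m : ℝ) * B2.card ≤ C₁ * (s : ℝ) * F := by
    have hle : C₁ * s ≤ m := by
      refine le_trans ?_ ev1
      rw [hs]
      nlinarith [Nat.zero_le (C₁ * c₀)]
    have := hC₁ V m a h1 hΔ s hle
    rw [hF]
    exact_mod_cast this
  have hsubset : (univ.filter fun π : Equiv.Perm (Hf m) =>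
      ¬ ((1 - 1 / (k : ℝ)) ^ m * ((k : ℝ) * (1 - θ)) ^ Fintype.card V ≤
        (Nat.card ((Cg a π).Coloring (Fin (k + 4))) : ℝ))) ⊆ B1 ∪ B2 := by
    intro π hπ
    by_contra hnot
    rw [mem_union, not_or] at hnot
    obtain ⟨hn1, hn2⟩ := hnot
    rw [mem_filter] at hπ
    apply hπ.2
    have hex : ∃ π₀ ∈ A', ((univ.filter fun x => π x ≠ ((ex hmm π₀).trans β) x).card : ℝ) < τ := by
      by_contra hcon
      push Not at hcon
      apply hn1
      rw [hB1, mem_filter]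
      refine ⟨mem_univ _, ?_⟩
      intro π' hπ'
      obtain ⟨π₀, hπ₀, rfl⟩ := mem_image.1 hπ'
      exact hcon π₀ hπ₀
    obtain ⟨π₀, hπ₀, hdist⟩ := hex
    set U := US a W π ((ex hmm π₀).trans β) with hU
    have hUc : U.card ≤ s := by
      refine (card_US a W π ((ex hmm π₀).trans β)).trans ?_
      rw [hs]
      refine Nat.add_le_add (Nat.mul_le_mul_left _ ?_) hW1
      have h1 : ((univ.filter fun x => π x ≠ ((ex hmm π₀).trans β) x).card : ℝ) ≤
          (⌈(m : ℝ) ^ (3 / 5 : ℝ)⌉₊ : ℝ) := hdist.le.trans (Nat.le_ceil _)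
      exact_mod_cast h1
    have hsparse : ∀ S ⊆ U, S.Nonempty → eC a π S < 2 * S.card := by
      intro S hS hSne
      by_contra hcon
      apply hn2
      rw [hB2, mem_filter]
      exact ⟨mem_univ _, S, hSne, (card_le_card hS).trans hUc, not_lt.1 hcon⟩
    obtain ⟨c4, hc4⟩ := hDEG V m a π U hsparse
    have hcount := count_near a W hmm β a' (by omega : 1 ≤ k) hβ ha' π π₀ c4 hc4
    set X : ℝ := (Nat.card ((Cg a π).Coloring (Fin (k + 4))) : ℝ) with hX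
    have hX0 : 0 ≤ X := Nat.cast_nonneg _
    have hk0 : (0 : ℝ) < k := by positivity
    have hk2 : (2 : ℝ) ≤ k := by exact_mod_cast hk
    have hk1 : (1 : ℝ) ≤ k := by linarith
    have hcount' : ((pcol a' k π₀).card : ℝ) ≤ X * (k : ℝ) ^ s := by
      have h1 : ((pcol a' k π₀).card : ℝ) ≤ X * (k : ℝ) ^ U.card := by
        rw [hX]; exact_mod_cast hcount
      refine h1.trans (mul_le_mul_of_nonneg_left ?_ hX0)
      exact pow_le_pow_right₀ hk1 hUc
    have hA2' := hA2 π₀ hπ₀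
    set q : ℝ := 1 - 1 / (k : ℝ) with hq
    have hq0 : 0 < q := by
      rw [hq, sub_pos, div_lt_one hk0]; linarith
    have hq1 : q ≤ 1 := by
      rw [hq]; have : 0 < 1 / (k : ℝ) := by positivity
      linarith
    have hqe : q ^ m ≤ q ^ m' := pow_le_pow_of_le_one hq0.le hq1 hmm
    have hVW : Fintype.card V ≤ Fintype.card {v // v ∈ W} + c₀ := by
      have h3 : Fintype.card {v // v ∈ W} = W.card := Fintype.card_coe W
      have h4 : (univ \ W).card = Fintype.card V - W.card := by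
        rw [card_sdiff_of_subset (subset_univ _), card_univ]
      omega
    have hkN : (k : ℝ) ^ Fintype.card V ≤ (k : ℝ) ^ Fintype.card {v // v ∈ W} * (k : ℝ) ^ c₀ := by
      rw [← pow_add]
      exact pow_le_pow_right₀ hk1 hVW
    have h1' : q ^ m * (k : ℝ) ^ Fintype.card V ≤ X * (T ^ C * (k : ℝ) ^ (s + c₀)) := by
      calc q ^ m * (k : ℝ) ^ Fintype.card V
          ≤ q ^ m' * ((k : ℝ) ^ Fintype.card {v // v ∈ W} * (k : ℝ) ^ c₀) := by gcongr
        _ = ((k : ℝ) ^ Fintype.card {v // v ∈ W} * q ^ m') * (k : ℝ) ^ c₀ := by ring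
        _ ≤ ((3 * (2 * (m' : ℝ) + 1)) ^ C * (pcol a' k π₀).card) * (k : ℝ) ^ c₀ := by
            gcongr
        _ ≤ (T ^ C * (X * (k : ℝ) ^ s)) * (k : ℝ) ^ c₀ := by gcongr
        _ = _ := by rw [pow_add]; ring
    have hθ' : (0 : ℝ) ≤ 1 - θ := by linarith
    -- the number of vertices
    have hVm : m ≤ Fintype.card V * (Δ + 1) := by
      have h2 : ∑ v, cnt a v = 2 * m := by
        rw [sum_cnt, Fintype.card_prod, Fintype.card_fin, Fintype.card_bool, mul_comm]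
      have h3 : ∑ v, cnt a v ≤ Fintype.card V * Δ := by
        refine (sum_le_card_nsmul _ _ Δ fun v _ => hΔ v).trans ?_
        rw [card_univ, smul_eq_mul]
      nlinarith
    have h5 : T ^ C * (k : ℝ) ^ (s + c₀) * (1 - θ) ^ Fintype.card V ≤ 1 := by
      have h6 : (T ^ C * (k : ℝ) ^ (s + c₀) * (1 - θ) ^ Fintype.card V) ^ (Δ + 1) ≤ 1 := by
        refine le_trans ?_ ev5
        have e1 : T ^ (C * (Δ + 1)) ≤ (3 * ((m : ℝ) + 1)) ^ (2 * C * (Δ + 1)) := by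
          calc T ^ (C * (Δ + 1)) ≤ ((3 * ((m : ℝ) + 1)) ^ 2) ^ (C * (Δ + 1)) :=
                pow_le_pow_left₀ hT0.le hTsq _
            _ = _ := by rw [← pow_mul]; congr 1; ring
        have e2 : (k : ℝ) ^ ((s + c₀) * (Δ + 1)) ≤ ((k ^ (2 * (Δ + 1)) : ℕ) : ℝ) ^
            (t + c₀ + c₀ + ⌈(m : ℝ) ^ (2 / 5 : ℝ)⌉₊) := by
          push_cast
          rw [← pow_mul]
          refine pow_le_pow_right₀ hk1 ?_
          rw [hs]
          nlinarith [Nat.zero_le (c₀ * (Δ + 1)), Nat.zero_le (⌈(m : ℝ) ^ (2 / 5 : ℝ)⌉₊ * (Δ + 1))]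
        have e3 : (1 - θ) ^ (Fintype.card V * (Δ + 1)) ≤ (1 - θ) ^ m :=
          pow_le_pow_of_le_one hθ' (by linarith) hVm
        calc (T ^ C * (k : ℝ) ^ (s + c₀) * (1 - θ) ^ Fintype.card V) ^ (Δ + 1)
            = T ^ (C * (Δ + 1)) * (k : ℝ) ^ ((s + c₀) * (Δ + 1)) *
              (1 - θ) ^ (Fintype.card V * (Δ + 1)) := by
              rw [mul_pow, mul_pow, ← pow_mul, ← pow_mul, ← pow_mul]
          _ ≤ _ := by gcongr
      by_contra hcon
      push Not at hcon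
      exact absurd h6 (not_le.2 (one_lt_pow₀ hcon (by omega)))
    calc q ^ m * ((k : ℝ) * (1 - θ)) ^ Fintype.card V
        = (q ^ m * (k : ℝ) ^ Fintype.card V) * (1 - θ) ^ Fintype.card V := by rw [mul_pow]; ring
      _ ≤ (X * (T ^ C * (k : ℝ) ^ (s + c₀))) * (1 - θ) ^ Fintype.card V :=
          mul_le_mul_of_nonneg_right h1' (by positivity)
      _ = X * (T ^ C * (k : ℝ) ^ (s + c₀) * (1 - θ) ^ Fintype.card V) := by ring
      _ ≤ X * 1 := mul_le_mul_of_nonneg_left h5 hX0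
      _ = X := mul_one X
  have hcard : ((univ.filter fun π : Equiv.Perm (Hf m) =>
      ¬ ((1 - 1 / (k : ℝ)) ^ m * ((k : ℝ) * (1 - θ)) ^ Fintype.card V ≤
        (Nat.card ((Cg a π).Coloring (Fin (k + 4))) : ℝ))).card : ℝ) ≤
      B1.card + B2.card := by
    have h1 := (card_le_card hsubset).trans (card_union_le _ _)
    exact_mod_cast h1
  set ν : ℝ := (m : ℝ) ^ (1 / 3 : ℝ) with hν
  have hν0 : 0 < ν := Real.rpow_pos_of_pos hmpos _
  have b1 : ν * B1.card ≤ F / 3 := by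
    have e1 : T ^ K ≤ (3 * ((m : ℝ) + 1)) ^ (2 * K) := by
      calc T ^ K ≤ ((3 * ((m : ℝ) + 1)) ^ 2) ^ K := pow_le_pow_left₀ hT0.le hTsq _
        _ = _ := by rw [← pow_mul]
    calc ν * B1.card ≤ ν * (F * (T ^ K * Real.exp (-(1 / 36 * (m : ℝ) ^ (1 / 5 : ℝ))))) :=
          mul_le_mul_of_nonneg_left hB1c hν0.le
      _ ≤ ν * (F * ((3 * ((m : ℝ) + 1)) ^ (2 * K) *
            Real.exp (-(1 / 36 * (m : ℝ) ^ (1 / 5 : ℝ))))) := by gcongr
      _ = F * (ν * ((3 * ((m : ℝ) + 1)) ^ (2 * K) *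
            Real.exp (-(1 / 36 * (m : ℝ) ^ (1 / 5 : ℝ))))) := by ring
      _ ≤ F * (1 / 3) := mul_le_mul_of_nonneg_left ev2 hF0.le
      _ = F / 3 := by ring
  have b2 : ν * B2.card ≤ F / 3 := by
    have h1 : (m : ℝ) * (ν * B2.card) ≤ m * (F / 3) := by
      have h2 : C₁ * (s : ℝ) ≤ ((2 * C₁ : ℕ) : ℝ) * ((t + c₀ : ℕ) : ℝ) := by
        have h3 : C₁ * s ≤ 2 * C₁ * (t + c₀) := by
          rw [hs]
          nlinarith [Nat.zero_le (C₁ * c₀)]
        exact_mod_cast h3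
      calc (m : ℝ) * (ν * B2.card) = ν * (m * B2.card) := by ring
        _ ≤ ν * (C₁ * (s : ℝ) * F) := mul_le_mul_of_nonneg_left hB2c hν0.le
        _ ≤ ν * ((((2 * C₁ : ℕ) : ℝ) * ((t + c₀ : ℕ) : ℝ)) * F) := by gcongr
        _ = (ν * (((2 * C₁ : ℕ) : ℝ) * ((t + c₀ : ℕ) : ℝ))) * F := by ring
        _ ≤ (m / 3) * F := mul_le_mul_of_nonneg_right ev3 hF0.le
        _ = _ := by ring
    exact le_of_mul_le_mul_left h1 hmpos
  calc ν * _ ≤ ν * ((B1.card : ℝ) + B2.card) := mul_le_mul_of_nonneg_left hcard hν0.le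
    _ = ν * B1.card + ν * B2.card := by ring
    _ ≤ F / 3 + F / 3 := by linarith
    _ ≤ F := by linarith

end Pool.Agent.L0h98.GS
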