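import Pool.Agent.L0h98.GS.Def
import Pool.Agent.N404.LF.Mom

set_option autoImplicit false

/-! The second moment: classes of vertices. -/

namespace Pool.Agent.L0h98.GS

open Finset Classical
open Pool.Agent.N404.LF (cnt Bal ov S_FIB sum_perm_le fact_pow exists_bal bal_of bal_comp sum_cnt)

/-- restriction to a class -/
def rs {V ι A : Type} (cl : V → ι) (σ : V → A) (i : ι) : {v // cl v = i} → A :=
  fun v => σ v.1

/-- splitting a colouring into its restrictions -/
def spl {V ι : Type} (k : ℕ) (cl : V → ι) :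
    (V → Fin k) ≃ (∀ i, {v // cl v = i} → Fin k) where
  toFun σ i v := σ v.1
  invFun g v := g (cl v) ⟨v, rfl⟩
  left_inv σ := rfl
  right_inv g := by
    funext i v
    obtain ⟨v, rfl⟩ := v
    rfl

theorem sum_spl {V ι : Type} [Fintype V] [Fintype ι] {k : ℕ} (cl : V → ι)
    (h : ∀ i, ({v // cl v = i} → Fin k) → ℝ) :
    ∑ τ : V → Fin k, ∏ i, h i (rs cl τ i) = ∏ i, ∑ g, h i g := by
  rw [Finset.prod_univ_sum, Fintype.piFinset_univ]
  exact Fintype.sum_equiv (spl k cl) _ _ fun τ => rfl

theorem card_bal {V ι : Type} [Fintype V] [Fintype ι] {k : ℕ} (cl : V → ι) :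
    ((univ.filter fun σ : V → Fin k => ∀ i, Bal (rs cl σ i)).card : ℝ) =
      ∏ i, ((univ.filter fun g : {v // cl v = i} → Fin k => Bal g).card : ℝ) := by
  have h1 := sum_spl (k := k) cl (fun i g => if Bal g then (1 : ℝ) else 0)
  have h2 : ∀ τ : V → Fin k, ∏ i, (if Bal (rs cl τ i) then (1 : ℝ) else 0) =
      if ∀ i, Bal (rs cl τ i) then (1 : ℝ) else 0 := by
    intro τ
    by_cases h : ∀ i, Bal (rs cl τ i)
    · rw [if_pos h]
      exact Finset.prod_eq_one fun i _ => if_pos (h i)
    · rw [if_neg h]
      push Not at h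
      obtain ⟨i, hi⟩ := h
      exact Finset.prod_eq_zero (mem_univ i) (if_neg hi)
  simp only [h2, Finset.sum_boole] at h1
  exact h1

/-- the number of balanced functions -/
theorem card_bal_one {X : Type} [Fintype X] [DecidableEq X] {k s : ℕ} (hs : Fintype.card X = k * s) :
    (k : ℝ) ^ Fintype.card X ≤ (3 * ((Fintype.card X : ℝ) + 1)) ^ k *
      ((univ.filter fun g : X → Fin k => Bal g).card : ℝ) := by
  obtain ⟨f, hf⟩ := exists_bal k s (Fintype.card X) hs
  have hbal : Bal f := bal_of hs hf
  have h1 := sum_perm_le f hf (fun g => if Bal g then (1 : ℝ) else 0)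
    (fun g => by positivity)
  have h2 : ∑ x : Equiv.Perm (Fin (Fintype.card X)), (if Bal (f ∘ x) then (1 : ℝ) else 0) =
      (Fintype.card X).factorial := by
    rw [Finset.sum_congr rfl fun x _ => if_pos (bal_comp hbal x)]
    simp [Fintype.card_perm]
  rw [h2, Finset.sum_boole] at h1
  have h3 : ((univ.filter fun g : X → Fin k => Bal g).card) =
      (univ.filter fun g : Fin (Fintype.card X) → Fin k => Bal g).card := by
    refine Finset.card_equiv ((Fintype.equivFin X).arrowCongr (Equiv.refl (Fin k))) fun g => ?_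
    simp only [mem_filter, mem_univ, true_and]
    have h4 : ∀ c, cnt (((Fintype.equivFin X).arrowCongr (Equiv.refl (Fin k))) g) c = cnt g c := by
      intro c
      unfold cnt
      refine Finset.card_equiv (Fintype.equivFin X).symm fun x => ?_
      simp [Equiv.arrowCongr]
    unfold Bal
    rw [Fintype.card_fin]
    exact forall_congr' fun c => by rw [h4]
  rw [h3]
  have h5 := fact_pow hs
  have h6 : (0 : ℝ) < (s.factorial : ℝ) ^ k := by positivity
  refine le_of_mul_le_mul_left ?_ h6
  refine h5.trans ?_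
  refine (mul_le_mul_of_nonneg_right h1 (by positivity)).trans (le_of_eq ?_)
  ring

section

variable {V ι : Type} [Fintype V] [Fintype ι] {m k : ℕ} (a : Hf m → V) (cl : V → ι) (d : ι → ℕ)

omit [Fintype ι] in
theorem cnt_comp_eq {A : Type} (φ : V → A) (x : A) :
    cnt (fun h => φ (a h)) x = ∑ v, if φ v = x then cnt a v else 0 := by
  unfold cnt
  rw [Finset.card_eq_sum_card_fiberwise (f := a) (t := univ) (fun _ _ => mem_univ _)]
  refine Finset.sum_congr rfl fun v _ => ?_
  split_ifs with h
  · congr 1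
    ext y
    simp only [mem_filter, mem_univ, true_and, and_iff_right_iff_imp]
    intro hy
    rw [hy]; exact h
  · rw [Finset.card_eq_zero, Finset.filter_eq_empty_iff]
    intro y hy hy2
    rw [mem_filter] at hy
    exact h (by rw [← hy2]; exact hy.2)

theorem cnt_classes {A : Type} (hd : ∀ v, cnt a v = d (cl v)) (φ : V → A) (x : A) :
    cnt (fun h => φ (a h)) x = ∑ i, d i * cnt (rs cl φ i) x := by
  rw [cnt_comp_eq]
  have h1 : ∑ v, (if φ v = x then cnt a v else 0) =
      ∑ p : (Σ i, {v // cl v = i}), if φ p.2.1 = x then d p.1 else 0 := by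
    refine (Fintype.sum_equiv (Equiv.sigmaFiberEquiv cl) _ _ fun p => ?_).symm
    obtain ⟨i, v, rfl⟩ := p
    rw [Equiv.sigmaFiberEquiv_apply, ← hd v]
  rw [h1, Fintype.sum_sigma]
  refine Finset.sum_congr rfl fun i _ => ?_
  rw [← Finset.sum_filter]
  show ∑ _v ∈ univ.filter (fun v : {v // cl v = i} => φ v.1 = x), d i = _
  rw [Finset.sum_const, smul_eq_mul, mul_comm]
  rfl

/-- the total number of half-edges -/
theorem sum_classes (hd : ∀ v, cnt a v = d (cl v)) :
    2 * m = ∑ i, d i * Fintype.card {v // cl v = i} := by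
  have h1 := cnt_classes a cl d hd (fun _ => ()) ()
  have h2 : ∀ (X : Type) [Fintype X], cnt (fun _ : X => ()) () = Fintype.card X := by
    intro X _
    have := sum_cnt (fun _ : X => ())
    simpa using this
  have h3 : ∀ i, cnt (rs cl (fun _ : V => ()) i) () = Fintype.card {v // cl v = i} :=
    fun i => h2 _
  rw [h2, Finset.sum_congr rfl fun i _ => by rw [h3 i]] at h1
  rw [← h1, Fintype.card_prod, Fintype.card_fin, Fintype.card_bool, mul_comm]

/-- half-edges are coloured in a balanced way -/
theorem bal_half (hd : ∀ v, cnt a v = d (cl v)) (σ : V → Fin k) (hσ : ∀ i, Bal (rs cl σ i)) :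
    Bal (fun h => σ (a h)) := by
  intro c
  rw [cnt_classes a cl d hd σ c, Finset.mul_sum, Fintype.card_prod, Fintype.card_fin,
    Fintype.card_bool, mul_comm m 2, sum_classes a cl d hd]
  refine Finset.sum_congr rfl fun i _ => ?_
  rw [← hσ i c]
  ring

end

end Pool.Agent.L0h98.GS
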