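import Pool.Agent.L0h98.GS.Mom1

set_option autoImplicit false

/-! The second moment: a pair of balanced colourings. -/

namespace Pool.Agent.L0h98.GS

open Finset Classical
open Pool.Agent.N404.LF (cnt Bal ov S_FIB pairsum R2 sum_cnt_left sum_cnt_right)

section

variable {V ι : Type} [Fintype V] [Fintype ι] {m k : ℕ} (a : Hf m → V) (cl : V → ι) (d : ι → ℕ)

theorem marg (hm : 1 ≤ m) (hk : 1 ≤ k) (f g : Hf m → Fin k) (hf : Bal f) (hg : Bal g) :
    (∀ c, ∑ e, (cnt (fun x => (f x, g x)) (c, e) : ℝ) / (2 * m) = 1 / k) ∧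
    (∀ e, ∑ c, (cnt (fun x => (f x, g x)) (c, e) : ℝ) / (2 * m) = 1 / k) := by
  have hN0 : (2 * m : ℝ) ≠ 0 := by positivity
  have hk0 : (k : ℝ) ≠ 0 := by positivity
  have hc : Fintype.card (Hf m) = 2 * m := by
    rw [Fintype.card_prod, Fintype.card_fin, Fintype.card_bool, mul_comm]
  constructor
  · intro c
    rw [← Finset.sum_div, ← Nat.cast_sum, sum_cnt_left]
    have h := hf c
    rw [hc] at h
    have h' : (k : ℝ) * (cnt f c : ℝ) = 2 * m := by exact_mod_cast h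
    rw [div_eq_div_iff hN0 hk0]
    linarith
  · intro c
    rw [← Finset.sum_div, ← Nat.cast_sum, sum_cnt_right]
    have h := hg c
    rw [hc] at h
    have h' : (k : ℝ) * (cnt g c : ℝ) = 2 * m := by exact_mod_cast h
    rw [div_eq_div_iff hN0 hk0]
    linarith

/-- the overlap of the half-edges is a mean of the overlaps of the classes -/
theorem ov_mean (hm : 1 ≤ m) (hd : ∀ v, cnt a v = d (cl v)) (σ τ : V → Fin k) :
    ∑ c, ∑ e, ((cnt (fun h => (σ (a h), τ (a h))) (c, e) : ℝ) / (2 * m)) ^ 2 - 1 / (k : ℝ) ^ 2 ≤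
      ∑ i, ((d i : ℝ) * Fintype.card {v // cl v = i} / (2 * m)) *
        ov (rs cl σ i) (rs cl τ i) := by
  have hN0 : (0 : ℝ) < 2 * m := by positivity
  set n : ι → ℕ := fun i => Fintype.card {v // cl v = i} with hn
  set w : ι → ℝ := fun i => (d i : ℝ) * n i / (2 * m) with hw
  have hw0 : ∀ i, 0 ≤ w i := fun i => by positivity
  have hw1 : ∑ i, w i = 1 := by
    rw [hw, ← Finset.sum_div, div_eq_one_iff_eq hN0.ne']
    have h1 := sum_classes a cl d hd
    have h2 : ((2 * m : ℕ) : ℝ) = ((∑ i, d i * Fintype.card {v // cl v = i} : ℕ) : ℝ) := by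
      rw [← h1]
    push_cast at h2
    rw [h2]
  set u : ι → Fin k → Fin k → ℝ := fun i c e =>
    (cnt (fun x => (rs cl σ i x, rs cl τ i x)) (c, e) : ℝ) / n i with hu
  have hp : ∀ c e, (cnt (fun h => (σ (a h), τ (a h))) (c, e) : ℝ) / (2 * m) =
      ∑ i, w i • u i c e := by
    intro c e
    have h1 := cnt_classes a cl d hd (fun v => (σ v, τ v)) (c, e)
    rw [h1, Nat.cast_sum, Finset.sum_div]
    refine Finset.sum_congr rfl fun i _ => ?_
    rw [smul_eq_mul, hw, hu]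
    have h2 : cnt (rs cl (fun v => (σ v, τ v)) i) (c, e) =
      cnt (fun x => (rs cl σ i x, rs cl τ i x)) (c, e) := rfl
    rw [h2]
    push_cast
    rcases Nat.eq_zero_or_pos (n i) with h0 | hpos
    · have h3 : cnt (fun x => (rs cl σ i x, rs cl τ i x)) (c, e) = 0 := by
        unfold cnt
        have : IsEmpty {v // cl v = i} := Fintype.card_eq_zero_iff.1 h0
        rw [Finset.card_eq_zero]
        exact Finset.eq_empty_of_isEmpty _
      rw [h3, h0]
      simp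
    · have : (n i : ℝ) ≠ 0 := by positivity
      field_simp
  have hj : ∀ c e, ((cnt (fun h => (σ (a h), τ (a h))) (c, e) : ℝ) / (2 * m)) ^ 2 ≤
      ∑ i, w i * (u i c e) ^ 2 := by
    intro c e
    rw [hp c e]
    have := (even_two.convexOn_pow (𝕜 := ℝ)).map_sum_le (t := (univ : Finset ι)) (w := w)
      (p := fun i => u i c e) (fun i _ => hw0 i) hw1 (fun i _ => Set.mem_univ _)
    simpa [smul_eq_mul] using this
  have h3 : ∑ c, ∑ e, ((cnt (fun h => (σ (a h), τ (a h))) (c, e) : ℝ) / (2 * m)) ^ 2 ≤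
      ∑ i, w i * ∑ c, ∑ e, (u i c e) ^ 2 := by
    calc ∑ c, ∑ e, ((cnt (fun h => (σ (a h), τ (a h))) (c, e) : ℝ) / (2 * m)) ^ 2
        ≤ ∑ c, ∑ e, ∑ i, w i * (u i c e) ^ 2 :=
          Finset.sum_le_sum fun c _ => Finset.sum_le_sum fun e _ => hj c e
      _ = ∑ c, ∑ i, ∑ e, w i * (u i c e) ^ 2 :=
          Finset.sum_congr rfl fun c _ => Finset.sum_comm
      _ = ∑ i, ∑ c, ∑ e, w i * (u i c e) ^ 2 := Finset.sum_comm
      _ = _ := by
          refine Finset.sum_congr rfl fun i _ => ?_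
          rw [Finset.mul_sum]
          refine Finset.sum_congr rfl fun c _ => ?_
          rw [Finset.mul_sum]
  have h4 : ∑ i, w i * ov (rs cl σ i) (rs cl τ i) =
      ∑ i, w i * (∑ c, ∑ e, (u i c e) ^ 2) - 1 / (k : ℝ) ^ 2 := by
    have h5 : ∀ i, w i * ov (rs cl σ i) (rs cl τ i) =
        w i * (∑ c, ∑ e, (u i c e) ^ 2) - w i * (1 / (k : ℝ) ^ 2) := by
      intro i
      unfold ov
      rw [mul_sub]
    rw [Finset.sum_congr rfl fun i _ => h5 i, Finset.sum_sub_distrib, ← Finset.sum_mul, hw1,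
      one_mul]
  have h6 : ∑ i, ((d i : ℝ) * Fintype.card {v // cl v = i} / (2 * m)) *
        ov (rs cl σ i) (rs cl τ i) = ∑ i, w i * ov (rs cl σ i) (rs cl τ i) := rfl
  rw [h6, h4]
  linarith

theorem pair_bd (hUP : S_UPM) (hm : 1 ≤ m) (hk : 2 ≤ k) (hd : ∀ v, cnt a v = d (cl v))
    (σ τ : V → Fin k) (hσ : ∀ i, Bal (rs cl σ i)) (hτ : ∀ i, Bal (rs cl τ i)) :
    ((univ.filter fun π : Equiv.Perm (Hf m) =>
      (∀ i, σ (a (π (i, false))) ≠ σ (a (π (i, true)))) ∧
      ∀ i, τ (a (π (i, false))) ≠ τ (a (π (i, true)))).card : ℝ) ≤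
    ((2 * m).factorial : ℝ) * (3 * (2 * (m : ℝ) + 1)) ^ (k ^ 2) * (1 - 1 / (k : ℝ)) ^ (2 * m) *
      ∏ i, Real.exp (Fintype.card {v // cl v = i} * ((d i : ℝ) / 2 * ((k : ℝ) / (k - 1)) ^ 2) *
        ov (rs cl σ i) (rs cl τ i)) := by
  have hk0 : (0 : ℝ) < k := by positivity
  have hk1 : (0 : ℝ) < (k : ℝ) - 1 := by
    have : (2 : ℝ) ≤ k := by exact_mod_cast hk
    linarith
  have hm0 : (0 : ℝ) < m := by exact_mod_cast hm
  have h := hUP (Fin k × Fin k) m (fun x => (σ (a x), τ (a x))) R2 hm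
  have hset : (univ.filter fun π : Equiv.Perm (Hf m) =>
      (∀ i, σ (a (π (i, false))) ≠ σ (a (π (i, true)))) ∧
      ∀ i, τ (a (π (i, false))) ≠ τ (a (π (i, true)))) =
      univ.filter fun π : Equiv.Perm (Hf m) =>
        ∀ i, R2 ((fun x => (σ (a x), τ (a x))) (π (i, false)))
          ((fun x => (σ (a x), τ (a x))) (π (i, true))) := by
    ext π
    rw [mem_filter, mem_filter]
    constructor
    · rintro ⟨_, h, h'⟩
      exact ⟨mem_univ _, fun i => ⟨h i, h' i⟩⟩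
    · rintro ⟨_, h⟩
      exact ⟨mem_univ _, fun i => (h i).1, fun i => (h i).2⟩
  rw [hset]
  refine h.trans ?_
  have hcard : Fintype.card (Fin k × Fin k) = k ^ 2 := by
    rw [Fintype.card_prod, Fintype.card_fin]; ring
  rw [hcard]
  have hbσ := bal_half a cl d hd σ hσ
  have hbτ := bal_half a cl d hd τ hτ
  obtain ⟨hm1, hm2⟩ := marg hm (by omega : 1 ≤ k) (fun h => σ (a h)) (fun h => τ (a h)) hbσ hbτ
  set p : Fin k → Fin k → ℝ := fun c e =>
    (cnt (fun x => (σ (a x), τ (a x))) (c, e) : ℝ) / (2 * m) with hp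
  have hsum : (∑ x : Fin k × Fin k, ∑ y : Fin k × Fin k, if R2 x y then
      ((cnt (fun x => (σ (a x), τ (a x))) x : ℝ) / (2 * m)) *
        ((cnt (fun x => (σ (a x), τ (a x))) y : ℝ) / (2 * m)) else 0)
      = 1 - 2 / k + ∑ c, ∑ e, p c e * p c e := by
    rw [← pairsum (by omega) p p hm1 hm2 hm1 hm2]
    rw [Fintype.sum_prod_type]
    refine Finset.sum_congr rfl fun c _ => Finset.sum_congr rfl fun e _ => ?_
    rw [Fintype.sum_prod_type]
    refine Finset.sum_congr rfl fun c' _ => Finset.sum_congr rfl fun e' _ => ?_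
    by_cases hcd : c ≠ c' ∧ e ≠ e'
    · rw [if_pos hcd, if_pos (show R2 (c, e) (c', e') from hcd)]
    · rw [if_neg hcd, if_neg (show ¬ R2 (c, e) (c', e') from hcd)]
  rw [hsum]
  have hov := ov_mean a cl d hm hd σ τ
  set y := ∑ c, ∑ e, p c e * p c e with hy
  have hy2 : y = ∑ c, ∑ e, ((cnt (fun h => (σ (a h), τ (a h))) (c, e) : ℝ) / (2 * m)) ^ 2 := by
    rw [hy]
    refine Finset.sum_congr rfl fun c _ => Finset.sum_congr rfl fun e _ => ?_
    rw [hp]; ring
  rw [← hy2] at hov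
  set S := ∑ i, ((d i : ℝ) * Fintype.card {v // cl v = i} / (2 * m)) *
        ov (rs cl σ i) (rs cl τ i) with hS
  set κ : ℝ := ((k : ℝ) / (k - 1)) ^ 2 with hκ
  have hκ0 : 0 < κ := by positivity
  have hbase : 1 - 2 / (k : ℝ) + y ≤ (1 - 1 / (k : ℝ)) ^ 2 * Real.exp (κ * S) := by
    have h1 : 1 - 2 / (k : ℝ) + y = (1 - 1 / (k : ℝ)) ^ 2 * (κ * (y - 1 / (k : ℝ) ^ 2) + 1) := by
      rw [hκ]
      field_simp
      ring
    rw [h1]
    refine mul_le_mul_of_nonneg_left ?_ (sq_nonneg _)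
    refine (Real.add_one_le_exp _).trans (Real.exp_le_exp.2 ?_)
    exact mul_le_mul_of_nonneg_left hov hκ0.le
  have hy0 : 0 ≤ 1 - 2 / (k : ℝ) + y := by
    have h1 : 0 ≤ y := by
      refine Finset.sum_nonneg fun c _ => Finset.sum_nonneg fun d _ => ?_
      exact mul_self_nonneg _
    have h2 : 2 / (k : ℝ) ≤ 1 := by
      rw [div_le_one hk0]; exact_mod_cast hk
    linarith
  have hpow := pow_le_pow_left₀ hy0 hbase m
  refine (mul_le_mul_of_nonneg_left hpow (by positivity)).trans (le_of_eq ?_)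
  rw [mul_pow ((1 - 1 / (k : ℝ)) ^ 2), ← pow_mul, ← Real.exp_nat_mul, ← Real.exp_sum]
  have e3 : (m : ℝ) * (κ * S) = ∑ i, Fintype.card {v // cl v = i} * ((d i : ℝ) / 2 * κ) *
        ov (rs cl σ i) (rs cl τ i) := by
    rw [hS, Finset.mul_sum, Finset.mul_sum]
    refine Finset.sum_congr rfl fun i _ => ?_
    field_simp
  rw [e3]
  ring

end

end Pool.Agent.L0h98.GS
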