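import Pool.Agent.L0h98.GS.Def
import Pool.Agent.N404.LF.Perm

set_option autoImplicit false

/-! A large part of the vertices with class sizes divisible by `L`, and its half-edges. -/

namespace Pool.Agent.L0h98.GS

open Finset Classical
open Pool.Agent.N404.LF (cnt Bal ov sum_cnt)

/-- embedding of the smaller set of positions -/
def emb {m' m : ℕ} (h : m' ≤ m) : Hf m' ↪ Hf m where
  toFun x := (Fin.castLE h x.1, x.2)
  inj' := by
    rintro ⟨i, b⟩ ⟨j, c⟩ hx
    simp only [Prod.mk.injEq] at hx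
    exact Prod.ext (Fin.castLE_injective h hx.1) hx.2

theorem emb_apply {m' m : ℕ} (h : m' ≤ m) (x : Hf m') : emb h x = (Fin.castLE h x.1, x.2) := rfl

theorem mem_range_emb {m' m : ℕ} (h : m' ≤ m) (x : Hf m) :
    x ∈ Set.range (emb h) ↔ x.1.val < m' := by
  constructor
  · rintro ⟨y, rfl⟩
    exact y.1.2
  · intro hx
    exact ⟨(⟨x.1.val, hx⟩, x.2), rfl⟩

theorem card_lt {m' m : ℕ} (h : m' ≤ m) :
    (univ.filter fun x : Hf m => x.1.val < m').card = 2 * m' := by
  have h1 : (univ.filter fun x : Hf m => x.1.val < m') = (univ : Finset (Hf m')).map (emb h) := by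
    ext x
    rw [mem_filter, mem_map]
    simp only [mem_univ, true_and]
    exact (mem_range_emb h x).symm
  rw [h1, card_map, card_univ, Fintype.card_prod, Fintype.card_fin, Fintype.card_bool, mul_comm]

/-- extension of a permutation by the identity -/
noncomputable def ex {m' m : ℕ} (h : m' ≤ m) (π : Equiv.Perm (Hf m')) : Equiv.Perm (Hf m) :=
  π.viaFintypeEmbedding (emb h)

theorem ex_apply {m' m : ℕ} (h : m' ≤ m) (π : Equiv.Perm (Hf m')) (x : Hf m') :
    ex h π (emb h x) = emb h (π x) :=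
  Equiv.Perm.viaFintypeEmbedding_apply_image π (emb h) x

theorem ex_out {m' m : ℕ} (h : m' ≤ m) (π : Equiv.Perm (Hf m')) (x : Hf m)
    (hx : ¬ x.1.val < m') : ex h π x = x :=
  Equiv.Perm.viaFintypeEmbedding_apply_notMem_range π (emb h)
    (fun hcon => hx ((mem_range_emb h x).1 hcon))

theorem ex_inj {m' m : ℕ} (h : m' ≤ m) : Function.Injective (ex (m' := m') h) := by
  intro π π' hp
  apply Equiv.ext
  intro x
  have h1 := ex_apply h π x
  rw [hp, ex_apply] at h1
  exact ((emb h).injective h1).symm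

theorem ex_lt {m' m : ℕ} (h : m' ≤ m) (π : Equiv.Perm (Hf m')) (x : Hf m) :
    (ex h π x).1.val < m' ↔ x.1.val < m' := by
  by_cases hx : x.1.val < m'
  · obtain ⟨y, rfl⟩ := (mem_range_emb h x).2 hx
    rw [ex_apply]
    exact ⟨fun _ => y.1.2, fun _ => (π y).1.2⟩
  · rw [ex_out h π x hx]

/-- a large set of vertices whose classes have sizes divisible by `L` -/
theorem exists_sub {V : Type} [Fintype V] (c : V → ℕ) (Δ L : ℕ) (hL : 1 ≤ L) (hc : ∀ v, c v ≤ Δ) :
    ∃ W : Finset V, (∀ j, L ∣ (W.filter fun v => c v = j).card) ∧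
      (univ \ W).card ≤ (Δ + 1) * L := by
  have h1 : ∀ j : ℕ, ∃ S : Finset V, S ⊆ (univ.filter fun v => c v = j) ∧
      S.card = L * ((univ.filter fun v => c v = j).card / L) := fun j =>
    exists_subset_card_eq (Nat.mul_div_le _ _)
  choose S hS1 hS2 using h1
  refine ⟨univ.filter fun v => v ∈ S (c v), fun j => ?_, ?_⟩
  · have h2 : ((univ.filter fun v => v ∈ S (c v)).filter fun v => c v = j) = S j := by
      ext v
      simp only [mem_filter, mem_univ, true_and]
      constructor
      · rintro ⟨h, rfl⟩; exact h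
      · intro h
        have h3 : c v = j := by
          have := hS1 j h
          exact (mem_filter.1 this).2
        rw [h3]; exact ⟨h, rfl⟩
    rw [h2, hS2]
    exact Dvd.intro _ rfl
  · have h2 : (univ \ univ.filter fun v => v ∈ S (c v)) ⊆
        (range (Δ + 1)).biUnion fun j => (univ.filter fun v => c v = j) \ S j := by
      intro v hv
      simp only [mem_sdiff, mem_univ, true_and, mem_filter] at hv
      rw [mem_biUnion]
      refine ⟨c v, mem_range.2 (Nat.lt_succ_of_le (hc v)), ?_⟩
      simp only [mem_sdiff, mem_filter, mem_univ, true_and]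
      exact hv
    refine (card_le_card h2).trans (card_biUnion_le.trans ?_)
    have h3 : ∀ j ∈ range (Δ + 1), ((univ.filter fun v => c v = j) \ S j).card ≤ L := by
      intro j _
      rw [card_sdiff_of_subset (hS1 j), hS2]
      have h4 := Nat.div_add_mod (univ.filter fun v => c v = j).card L
      have h5 := Nat.mod_lt (univ.filter fun v => c v = j).card hL
      omega
    refine (sum_le_card_nsmul _ _ _ h3).trans (le_of_eq ?_)
    rw [card_range, smul_eq_mul]

theorem cnt_eq {X Y A B : Type} [Fintype X] [Fintype Y] (f : X → A) (g : Y → B) (x : A) (y : B)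
    (φ : X → Y) (hφ : Function.Injective φ) (h1 : ∀ x', f x' = x → g (φ x') = y)
    (h2 : ∀ y', g y' = y → ∃ x', f x' = x ∧ φ x' = y') : cnt f x = cnt g y := by
  unfold cnt
  refine Finset.card_bij (fun x _ => φ x) ?_ ?_ ?_
  · intro z hz
    rw [mem_filter] at hz ⊢
    exact ⟨mem_univ _, h1 z hz.2⟩
  · intro z _ w _ h
    exact hφ h
  · intro z hz
    rw [mem_filter] at hz
    obtain ⟨w, hw1, hw2⟩ := h2 z hz.2
    exact ⟨w, by rw [mem_filter]; exact ⟨mem_univ _, hw1⟩, hw2⟩

theorem card_eq' {V : Type} (W : Finset V) (p : {v // v ∈ W} → Prop) (q : V → Prop)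
    (h : ∀ v, p v ↔ q v.1) : (univ.filter p).card = (W.filter q).card := by
  refine Finset.card_bij (fun v _ => v.1) ?_ ?_ ?_
  · intro v hv
    rw [mem_filter] at hv ⊢
    exact ⟨v.2, (h v).1 hv.2⟩
  · intro v _ w _ h
    exact Subtype.ext h
  · intro v hv
    rw [mem_filter] at hv
    exact ⟨⟨v, hv.1⟩, by rw [mem_filter]; exact ⟨mem_univ _, (h _).2 hv.2⟩, rfl⟩

/-- the data of the sub-configuration -/
theorem exists_data {V : Type} [Fintype V] {m : ℕ} (a : Hf m → V) (k Δ : ℕ) (hk : 2 ≤ k)
    (hΔ : ∀ v, cnt a v ≤ Δ) :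
    ∃ (W : Finset V) (m' : ℕ) (hm : m' ≤ m) (β : Equiv.Perm (Hf m)) (a' : Hf m' → {v // v ∈ W}),
      (univ \ W).card ≤ (Δ + 1) * (2 * (k * (k - 1))) ∧
      2 * m ≤ 2 * m' + Δ * ((Δ + 1) * (2 * (k * (k - 1)))) ∧
      (∀ x : Hf m, x.1.val < m' ↔ a (β x) ∈ W) ∧
      (∀ x : Hf m', (a' x).1 = a (β (emb hm x))) ∧
      (∀ v : {v // v ∈ W}, cnt a' v = cnt a v.1) ∧
      (∀ j, 2 * (k * (k - 1)) ∣ (univ.filter fun v : {v // v ∈ W} => cnt a' v = j).card) := by
  have hkk : 1 ≤ 2 * (k * (k - 1)) := by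
    have : 1 ≤ k * (k - 1) := Nat.mul_pos (by omega) (by omega)
    omega
  obtain ⟨W, hW1, hW2⟩ := exists_sub (fun v => cnt a v) Δ (2 * (k * (k - 1))) hkk hΔ
  -- the half-edges at W
  have hlab : ∀ S : Finset V, (univ.filter fun x : Hf m => a x ∈ S).card = ∑ v ∈ S, cnt a v := by
    intro S
    rw [Finset.card_eq_sum_card_fiberwise (f := a) (s := univ.filter fun x : Hf m => a x ∈ S)
      (t := S) (fun x hx => (mem_filter.1 (mem_coe.1 hx)).2)]
    refine Finset.sum_congr rfl fun v hv => ?_
    unfold cnt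
    congr 1
    ext x
    simp only [mem_filter, mem_univ, true_and, and_iff_right_iff_imp]
    rintro rfl; exact hv
  have htot : (univ.filter fun x : Hf m => a x ∈ W).card +
      (univ.filter fun x : Hf m => a x ∈ univ \ W).card = 2 * m := by
    have h1 := Finset.card_filter_add_card_filter_not (s := (univ : Finset (Hf m)))
      (fun x => a x ∈ W)
    have h2 : (univ.filter fun x : Hf m => a x ∈ univ \ W) =
        univ.filter fun x : Hf m => ¬ a x ∈ W := by
      ext x; simp
    rw [h2, h1, card_univ, Fintype.card_prod, Fintype.card_fin, Fintype.card_bool, mul_comm]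
  have heven : 2 ∣ (univ.filter fun x : Hf m => a x ∈ W).card := by
    rw [hlab W, ← Finset.sum_fiberwise_of_maps_to (s := W) (t := range (Δ + 1))
      (g := fun v => cnt a v) (fun v _ => mem_range.2 (Nat.lt_succ_of_le (hΔ v)))]
    refine Finset.dvd_sum fun j _ => ?_
    have h1 : ∑ v ∈ W.filter (fun v => cnt a v = j), cnt a v =
        (W.filter fun v => cnt a v = j).card * j := by
      rw [Finset.sum_congr rfl fun v hv => (mem_filter.1 hv).2, Finset.sum_const, smul_eq_mul]
    rw [h1]
    exact Dvd.dvd.mul_right ((Dvd.intro _ rfl).trans (hW1 j)) _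
  obtain ⟨m', hm'⟩ := heven
  have hm : m' ≤ m := by omega
  -- the relabelling
  have hcard : Fintype.card {x : Hf m // x.1.val < m'} = Fintype.card {x : Hf m // a x ∈ W} := by
    rw [Fintype.card_subtype, Fintype.card_subtype, card_lt hm, hm']
  set e : {x : Hf m // x.1.val < m'} ≃ {x : Hf m // a x ∈ W} := Fintype.equivOfCardEq hcard with he
  set β : Equiv.Perm (Hf m) := e.extendSubtype with hβ
  have hβ1 : ∀ x : Hf m, x.1.val < m' ↔ a (β x) ∈ W := by
    intro x
    constructor
    · intro hx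
      exact e.extendSubtype_mem x hx
    · intro hx
      by_contra hcon
      exact e.extendSubtype_not_mem x hcon hx
  have hβ2 : ∀ x : Hf m', a (β (emb hm x)) ∈ W := fun x => (hβ1 _).1 x.1.2
  refine ⟨W, m', hm, β, fun x => ⟨a (β (emb hm x)), hβ2 x⟩, hW2, ?_, hβ1, fun x => rfl, ?_, ?_⟩
  · have h1 : (univ.filter fun x : Hf m => a x ∈ univ \ W).card ≤
        Δ * ((Δ + 1) * (2 * (k * (k - 1)))) := by
      rw [hlab]
      refine (sum_le_card_nsmul _ _ Δ fun v _ => hΔ v).trans ?_
      rw [smul_eq_mul, mul_comm]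
      exact Nat.mul_le_mul_left _ hW2
    omega
  all_goals
    have hcnt : ∀ v : {v // v ∈ W}, cnt (fun x => (⟨a (β (emb hm x)), hβ2 x⟩ : {v // v ∈ W})) v =
        cnt a v.1 := by
      rintro ⟨v, hv⟩
      refine cnt_eq _ _ _ _ (fun x => β (emb hm x)) (β.injective.comp (emb hm).injective) ?_ ?_
      · intro x hx
        exact congrArg Subtype.val hx
      · intro y hy
        have h1 : a (β (β.symm y)) ∈ W := by rw [Equiv.apply_symm_apply, hy]; exact hv
        obtain ⟨x, hx⟩ := (mem_range_emb hm _).2 ((hβ1 _).2 h1)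
        refine ⟨x, ?_, ?_⟩
        · refine Subtype.ext ?_
          show a (β (emb hm x)) = v
          rw [hx, Equiv.apply_symm_apply]
          exact hy
        · show β (emb hm x) = y
          rw [hx, Equiv.apply_symm_apply]
  · exact hcnt
  · intro j
    have h1 := card_eq' W (fun v => cnt (fun x => (⟨a (β (emb hm x)), hβ2 x⟩ : {v // v ∈ W})) v = j)
      (fun v => cnt a v = j) (fun v => by rw [hcnt])
    refine (congrArg (fun n => 2 * (k * (k - 1)) ∣ n) ?_).mpr (hW1 j)
    convert h1

end Pool.Agent.L0h98.GS
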